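import Pool.Agent.TH168.Mil.Glue

set_option autoImplicit false

namespace Pool.Agent.TH168.Mil

open Set Filter Topology MeasureTheory
open scoped ContDiff

theorem abs_mul_le' {A B a b : ℝ} (h1 : |A| ≤ a) (h2 : |B| ≤ b) : |A * B| ≤ a * b := by
  rw [abs_mul]
  exact mul_le_mul h1 h2 (abs_nonneg _) (le_trans (abs_nonneg _) h1)

theorem kap_eq {L : ℝ} (hL : 1 ≤ L) : 0 ≤ kap L ∧ kap L ≤ 1 / L := by
  have hL0 : 0 < L := by linarith
  unfold kap eta
  constructor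
  · positivity
  · rw [div_le_div_iff₀ (by positivity) hL0]
    nlinarith

theorem rho_mem (r : ℝ) : 0 ≤ rho r ∧ rho r ≤ 1 :=
  ⟨Real.smoothTransition.nonneg _, Real.smoothTransition.le_one _⟩

set_option maxHeartbeats 4000000 in
theorem pattern_bounds : ∃ M : ℝ, 0 < M ∧ ∀ L : ℝ, 1 ≤ L → ∀ θ y : ℝ, 0 ≤ θ - y → 0 ≤ θ + y →
    Real.exp (θ + y) ≤ 2 * Real.exp (θ - y) → Real.exp (θ - y) ≤ Real.exp (θ + y) →
    |FF L θ y| ≤ M / (L ^ 2 * Real.exp (θ + y) ^ 5) ∧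
    |Fu L θ y| ≤ M / (L * Real.exp (θ + y) ^ 3) ∧
    |Fv L θ y| ≤ M / (L * Real.exp (θ + y) ^ 3) ∧
    |Fuv L θ y + kap L * rho (Real.exp (θ + y)) / Real.exp (θ + y) ^ 2 *
      Real.cos ((Sp L (θ + y) + Sm L (θ - y)) / 2) / 4| ≤
        M / (L ^ 2 * Real.exp (θ + y) ^ 5) ∧
    |Fuu L θ y - Up (Real.exp (θ + y)) (Sp L (θ + y))| ≤ M / L ∧
    |Fvv L θ y - Um (Real.exp (θ - y) + 1 / 500) (Sm L (θ - y))| ≤ M / L := by
  obtain ⟨M1, hM1, hu⟩ := u_bounds
  obtain ⟨M2, hM2, hv⟩ := v_bounds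
  obtain ⟨m, hm1, hm2, hm3⟩ : ∃ m : ℝ, M1 ≤ m ∧ M2 ≤ m ∧ 1 ≤ m :=
    ⟨max (max M1 M2) 1, le_trans (le_max_left _ _) (le_max_left _ _),
      le_trans (le_max_right _ _) (le_max_left _ _), le_max_right _ _⟩
  refine ⟨1000 * m ^ 2, by positivity, ?_⟩
  intro L hL θ y hv0 hu0 h2 h3
  obtain ⟨u1, u2, u3, u4, u5, u6, u7, u8, u9⟩ := hu L hL (θ + y) hu0
  obtain ⟨v1, v2, v3, v4, v5, v6, v7, v8, v9⟩ := hv L hL (θ - y) hv0
  have hx1 : 1 ≤ Real.exp (θ + y) := Real.one_le_exp hu0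
  have hz1 : 1 ≤ Real.exp (θ - y) := Real.one_le_exp hv0
  obtain ⟨hk0, hk1⟩ := kap_eq hL
  have hkabs : |kap L| ≤ 1 / L := by rw [abs_of_nonneg hk0]; exact hk1
  unfold FF Fu Fv Fuv Fuu Fvv
  have hS : (Sp L (θ + y) + Sm L (θ - y)) / 2 = Sp L (θ + y) / 2 + Sm L (θ - y) / 2 := by ring
  rw [hS, Real.cos_add]
  obtain ⟨hr0, hr1⟩ := rho_mem (Real.exp (θ + y))
  generalize rho (Real.exp (θ + y)) = R at *
  have hss := Real.abs_sin_le_one (Sp L (θ + y) / 2)
  have hcs := Real.abs_cos_le_one (Sp L (θ + y) / 2)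
  have hsm := Real.abs_sin_le_one (Sm L (θ - y) / 2)
  have hcm := Real.abs_cos_le_one (Sm L (θ - y) / 2)
  generalize Real.sin (Sp L (θ + y) / 2) = sp at *
  generalize Real.cos (Sp L (θ + y) / 2) = cp at *
  generalize Real.sin (Sm L (θ - y) / 2) = sm at *
  generalize Real.cos (Sm L (θ - y) / 2) = cm at *
  generalize Up (Real.exp (θ + y)) (Sp L (θ + y)) = UP at *
  generalize Um (Real.exp (θ - y) + 1 / 500) (Sm L (θ - y)) = UM at *
  generalize Real.exp (θ + y) = x at *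
  generalize Real.exp (θ - y) = z at *
  generalize pa L (θ + y) = pa0 at *
  generalize deriv (pa L) (θ + y) = pa1 at *
  generalize deriv (deriv (pa L)) (θ + y) = pa2 at *
  generalize Pc L (θ + y) = Pc0 at *
  generalize deriv (Pc L) (θ + y) = Pc1 at *
  generalize deriv (deriv (Pc L)) (θ + y) = Pc2 at *
  generalize Ps L (θ + y) = Ps0 at *
  generalize deriv (Ps L) (θ + y) = Ps1 at *
  generalize deriv (deriv (Ps L)) (θ + y) = Ps2 at *
  generalize pb L (θ - y) = pb0 at *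
  generalize deriv (pb L) (θ - y) = pb1 at *
  generalize deriv (deriv (pb L)) (θ - y) = pb2 at *
  generalize Qc L (θ - y) = Qc0 at *
  generalize deriv (Qc L) (θ - y) = Qc1 at *
  generalize deriv (deriv (Qc L)) (θ - y) = Qc2 at *
  generalize Qs L (θ - y) = Qs0 at *
  generalize deriv (Qs L) (θ - y) = Qs1 at *
  generalize deriv (deriv (Qs L)) (θ - y) = Qs2 at *
  generalize kap L = k at *
  have hL0 : 0 < L := by linarith
  have hx0 : 0 < x := by linarith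
  have hz0 : 0 < z := by linarith
  have hm0 : 0 < m := by linarith
  -- inverse variables
  have hl : ∃ l : ℝ, 0 < l ∧ l ≤ 1 ∧ l = 1 / L := ⟨1 / L, by positivity, by
    rw [div_le_one hL0]; exact hL, rfl⟩
  obtain ⟨l, hl0, hl1, hle⟩ := hl
  have hq : ∃ q : ℝ, 0 < q ∧ q ≤ 1 ∧ q = 1 / x := ⟨1 / x, by positivity, by
    rw [div_le_one hx0]; exact hx1, rfl⟩
  obtain ⟨q, hq0, hq1, hqe⟩ := hq
  have hLl : L = 1 / l := by rw [hle]; field_simp
  have hxq : x = 1 / q := by rw [hqe]; field_simp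
  have hz8 : ∀ c : ℝ, 0 ≤ c → c / (L * z ^ 3) ≤ c * (8 * l * q ^ 3) := by
    intro c hc
    have : (1:ℝ) / z ≤ 2 * q := by
      rw [hqe, div_le_iff₀ hz0]
      have : 2 * (1 / x) * z = 2 * z / x := by ring
      rw [this, le_div_iff₀ hx0]; linarith
    have h3' : (1 / z) ^ 3 ≤ (2 * q) ^ 3 := pow_le_pow_left₀ (by positivity) this 3
    have : c / (L * z ^ 3) = c * l * (1 / z) ^ 3 := by rw [hle]; field_simp
    rw [this]
    have := mul_le_mul_of_nonneg_left h3' (mul_nonneg hc hl0.le)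
    calc c * l * (1 / z) ^ 3 ≤ c * l * (2 * q) ^ 3 := this
      _ = _ := by ring
  have e1 : |pa0| ≤ m * (l ^ 2 * q ^ 6) := by
    refine le_trans u1 (le_trans (div_le_div_of_nonneg_right hm1 (by positivity)) (le_of_eq ?_))
    rw [hLl, hxq]; field_simp
  have e2 : |pa1| ≤ m * (l * q ^ 3) := by
    refine le_trans u2 (le_trans (div_le_div_of_nonneg_right hm1 (by positivity)) (le_of_eq ?_))
    rw [hLl, hxq]; field_simp
  have e3 : |pa2 - UP| ≤ m * (l * q ^ 3) := by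
    refine le_trans u3 (le_trans (div_le_div_of_nonneg_right hm1 (by positivity)) (le_of_eq ?_))
    rw [hLl, hxq]; field_simp
  have e4 : |Pc0| ≤ m * (l * q ^ 5) := by
    refine le_trans u4 (le_trans (div_le_div_of_nonneg_right hm1 (by positivity)) (le_of_eq ?_))
    rw [hLl, hxq]; field_simp
  have e5 : |Pc1 + R * q ^ 2 * sp / 2| ≤ m * (l * q ^ 5) := by
    have : Pc1 + R * q ^ 2 * sp / 2 = Pc1 + R / x ^ 2 * sp / 2 := by rw [hqe]; field_simp
    rw [this]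
    refine le_trans u5 (le_trans (div_le_div_of_nonneg_right hm1 (by positivity)) (le_of_eq ?_))
    rw [hLl, hxq]; field_simp
  have e6 : |Pc2| ≤ m * L * x := by
    refine le_trans u6 ?_
    exact mul_le_mul_of_nonneg_right (mul_le_mul_of_nonneg_right hm1 hL0.le) hx0.le
  have e7 : |Ps0| ≤ m * (l * q ^ 5) := by
    refine le_trans u7 (le_trans (div_le_div_of_nonneg_right hm1 (by positivity)) (le_of_eq ?_))
    rw [hLl, hxq]; field_simp
  have e8 : |Ps1 - R * q ^ 2 * cp / 2| ≤ m * (l * q ^ 5) := by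
    have : Ps1 - R * q ^ 2 * cp / 2 = Ps1 - R / x ^ 2 * cp / 2 := by rw [hqe]; field_simp
    rw [this]
    refine le_trans u8 (le_trans (div_le_div_of_nonneg_right hm1 (by positivity)) (le_of_eq ?_))
    rw [hLl, hxq]; field_simp
  have e9 : |Ps2| ≤ m * L * x := by
    refine le_trans u9 ?_
    exact mul_le_mul_of_nonneg_right (mul_le_mul_of_nonneg_right hm1 hL0.le) hx0.le
  have d1 : |pb0| ≤ m * (64 * l ^ 2 * q ^ 6) := by
    refine le_trans v1 ?_
    have h := hz8 1 zero_le_one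
    have h' : (1 / (L * z ^ 3)) ^ 2 ≤ (1 * (8 * l * q ^ 3)) ^ 2 :=
      pow_le_pow_left₀ (by positivity) h 2
    have : M2 / (L * z ^ 3) ^ 2 = M2 * (1 / (L * z ^ 3)) ^ 2 := by field_simp
    rw [this]
    calc M2 * (1 / (L * z ^ 3)) ^ 2 ≤ m * (1 * (8 * l * q ^ 3)) ^ 2 :=
          mul_le_mul hm2 h' (by positivity) hm0.le
      _ = _ := by ring
  have d2 : |pb1| ≤ m * (8 * l * q ^ 3) :=
    le_trans v2 (le_trans (div_le_div_of_nonneg_right hm2 (by positivity)) (hz8 m hm0.le))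
  have d3 : |pb2 - UM| ≤ m * (8 * l * q ^ 3) :=
    le_trans v3 (le_trans (div_le_div_of_nonneg_right hm2 (by positivity)) (hz8 m hm0.le))
  have d4 : |Qc0| ≤ m * (8 * l * q ^ 3) :=
    le_trans v4 (le_trans (div_le_div_of_nonneg_right hm2 (by positivity)) (hz8 m hm0.le))
  have d5 : |Qc1 + sm / 2| ≤ m * (8 * l * q ^ 3) :=
    le_trans v5 (le_trans (div_le_div_of_nonneg_right hm2 (by positivity)) (hz8 m hm0.le))
  have d6 : |Qc2| ≤ m * L * x ^ 3 := by
    refine le_trans v6 ?_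
    have : z ^ 3 ≤ x ^ 3 := pow_le_pow_left₀ hz0.le h3 3
    exact mul_le_mul (mul_le_mul_of_nonneg_right hm2 hL0.le) this (by positivity) (by positivity)
  have d7 : |Qs0| ≤ m * (8 * l * q ^ 3) :=
    le_trans v7 (le_trans (div_le_div_of_nonneg_right hm2 (by positivity)) (hz8 m hm0.le))
  have d8 : |Qs1 - cm / 2| ≤ m * (8 * l * q ^ 3) :=
    le_trans v8 (le_trans (div_le_div_of_nonneg_right hm2 (by positivity)) (hz8 m hm0.le))
  have d9 : |Qs2| ≤ m * L * x ^ 3 := by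
    refine le_trans v9 ?_
    have : z ^ 3 ≤ x ^ 3 := pow_le_pow_left₀ hz0.le h3 3
    exact mul_le_mul (mul_le_mul_of_nonneg_right hm2 hL0.le) this (by positivity) (by positivity)
  have hkl : |k| ≤ l := by rw [hle]; exact hkabs
  clear u1 u2 u3 u4 u5 u6 u7 u8 u9 v1 v2 v3 v4 v5 v6 v7 v8 v9
  clear hu hv
  have lq3 : l * q ^ 3 ≤ 1 := by
    have : q ^ 3 ≤ 1 := pow_le_one₀ hq0.le hq1
    calc l * q ^ 3 ≤ 1 * 1 := mul_le_mul hl1 this (by positivity) zero_le_one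
      _ = 1 := one_mul 1
  have lq2 : l * q ^ 2 ≤ 1 := by
    have : q ^ 2 ≤ 1 := pow_le_one₀ hq0.le hq1
    calc l * q ^ 2 ≤ 1 * 1 := mul_le_mul hl1 this (by positivity) zero_le_one
      _ = 1 := one_mul 1
  have hq2 : q ^ 2 ≤ 1 := pow_le_one₀ hq0.le hq1
  have hq3 : q ^ 3 ≤ 1 := pow_le_one₀ hq0.le hq1
  have hq5 : q ^ 5 ≤ 1 := pow_le_one₀ hq0.le hq1
  have hmm : m ≤ m ^ 2 := by
    have := mul_le_mul_of_nonneg_left hm3 hm0.le
    rw [sq]; linarith
  -- crude bounds on first derivatives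
  have c5 : |Pc1| ≤ 2 * m * q ^ 2 := by
    have h1 : |R * q ^ 2 * sp / 2| ≤ q ^ 2 / 2 := by
      rw [abs_div, abs_mul, abs_mul, abs_of_nonneg hr0, abs_of_nonneg (sq_nonneg q), abs_two]
      have : R * q ^ 2 * |sp| ≤ 1 * q ^ 2 * 1 :=
        mul_le_mul (mul_le_mul_of_nonneg_right hr1 (sq_nonneg q)) hss (abs_nonneg _) (by positivity)
      linarith
    have h2 : |Pc1| ≤ |Pc1 + R * q ^ 2 * sp / 2| + |R * q ^ 2 * sp / 2| := by
      have := abs_sub (Pc1 + R * q ^ 2 * sp / 2) (R * q ^ 2 * sp / 2)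
      simpa using this
    have h3 : m * (l * q ^ 5) ≤ m * q ^ 2 := by
      have : l * q ^ 5 ≤ q ^ 2 := by
        have : q ^ 5 = q ^ 2 * q ^ 3 := by ring
        have h9 := mul_le_mul_of_nonneg_left lq3 (sq_nonneg q)
        rw [this]
        linarith
      exact mul_le_mul_of_nonneg_left this hm0.le
    have h9 : q ^ 2 ≤ m * q ^ 2 := le_mul_of_one_le_left (sq_nonneg q) hm3
    have h10 : 0 ≤ q ^ 2 := sq_nonneg q
    linarith
  have c8 : |Ps1| ≤ 2 * m * q ^ 2 := by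
    have h1 : |R * q ^ 2 * cp / 2| ≤ q ^ 2 / 2 := by
      rw [abs_div, abs_mul, abs_mul, abs_of_nonneg hr0, abs_of_nonneg (sq_nonneg q), abs_two]
      have : R * q ^ 2 * |cp| ≤ 1 * q ^ 2 * 1 :=
        mul_le_mul (mul_le_mul_of_nonneg_right hr1 (sq_nonneg q)) hcs (abs_nonneg _) (by positivity)
      linarith
    have h2 : |Ps1| ≤ |Ps1 - R * q ^ 2 * cp / 2| + |R * q ^ 2 * cp / 2| := by
      have := abs_add_le (Ps1 - R * q ^ 2 * cp / 2) (R * q ^ 2 * cp / 2)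
      simpa using this
    have h3 : m * (l * q ^ 5) ≤ m * q ^ 2 := by
      have : l * q ^ 5 ≤ q ^ 2 := by
        have : q ^ 5 = q ^ 2 * q ^ 3 := by ring
        have h9 := mul_le_mul_of_nonneg_left lq3 (sq_nonneg q)
        rw [this]
        linarith
      exact mul_le_mul_of_nonneg_left this hm0.le
    have h9 : q ^ 2 ≤ m * q ^ 2 := le_mul_of_one_le_left (sq_nonneg q) hm3
    have h10 : 0 ≤ q ^ 2 := sq_nonneg q
    linarith
  have b5 : |Qc1| ≤ 9 * m := by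
    have h2 : |Qc1| ≤ |Qc1 + sm / 2| + |sm / 2| := by
      have := abs_sub (Qc1 + sm / 2) (sm / 2)
      simpa using this
    have h1 : |sm / 2| ≤ 1 / 2 := by rw [abs_div, abs_two]; linarith
    have h3 : m * (8 * l * q ^ 3) ≤ 8 * m := by
      have := mul_le_mul_of_nonneg_left lq3 hm0.le
      linarith
    linarith
  have b8 : |Qs1| ≤ 9 * m := by
    have h2 : |Qs1| ≤ |Qs1 - cm / 2| + |cm / 2| := by
      have := abs_add_le (Qs1 - cm / 2) (cm / 2)
      simpa using this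
    have h1 : |cm / 2| ≤ 1 / 2 := by rw [abs_div, abs_two]; linarith
    have h3 : m * (8 * l * q ^ 3) ≤ 8 * m := by
      have := mul_le_mul_of_nonneg_left lq3 hm0.le
      linarith
    linarith
  have t5 : ∀ c : ℝ, c / (L ^ 2 * x ^ 5) = c * (l ^ 2 * q ^ 5) := by
    intro c; rw [hLl, hxq]; field_simp
  have t3 : ∀ c : ℝ, c / (L * x ^ 3) = c * (l * q ^ 3) := by
    intro c; rw [hLl, hxq]; field_simp
  have t0 : ∀ c : ℝ, c / L = c * l := by
    intro c; rw [hLl]; field_simp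
  rw [t5, t3, t0]
  have hxl : L * x ^ 3 * (l * q ^ 3) = 1 := by rw [hLl, hxq]; field_simp
  have hxl1 : L * x * (l * q) = 1 := by rw [hLl, hxq]; field_simp
  refine ⟨?_, ?_, ?_, ?_, ?_, ?_⟩
  · -- FF
    have h1 := abs_mul_le' e4 d4
    have h2 := abs_mul_le' e7 d7
    have h3 : |k * (Pc0 * Qc0 - Ps0 * Qs0)| ≤
        l * (m * (l * q ^ 5) * (m * (8 * l * q ^ 3)) + m * (l * q ^ 5) * (m * (8 * l * q ^ 3))) :=
      abs_mul_le' hkl (le_trans (abs_sub _ _) (add_le_add h1 h2))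
    have h4 : |pa0 + pb0 + k * (Pc0 * Qc0 - Ps0 * Qs0)| ≤
        |pa0| + |pb0| + |k * (Pc0 * Qc0 - Ps0 * Qs0)| :=
      le_trans (abs_add_le _ _) (add_le_add (abs_add_le _ _) le_rfl)
    have h5 : m * (l ^ 2 * q ^ 6) ≤ m ^ 2 * (l ^ 2 * q ^ 5) := by
      have : l ^ 2 * q ^ 6 ≤ l ^ 2 * q ^ 5 := by
        have : q ^ 6 ≤ q ^ 5 := pow_le_pow_of_le_one hq0.le hq1 (by norm_num)
        exact mul_le_mul_of_nonneg_left this (by positivity)
      exact mul_le_mul hmm this (by positivity) (by positivity)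
    have h6 : l * (m * (l * q ^ 5) * (m * (8 * l * q ^ 3)) +
        m * (l * q ^ 5) * (m * (8 * l * q ^ 3))) ≤ 16 * (m ^ 2 * (l ^ 2 * q ^ 5)) := by
      have : l * (m * (l * q ^ 5) * (m * (8 * l * q ^ 3)) +
        m * (l * q ^ 5) * (m * (8 * l * q ^ 3))) = 16 * (m ^ 2 * (l ^ 2 * q ^ 5)) * (l * q ^ 3) := by
        ring
      rw [this]
      exact mul_le_of_le_one_right (by positivity) lq3
    have h7 : 0 ≤ m ^ 2 * (l ^ 2 * q ^ 5) := by positivity
    linarith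
  · -- Fu
    have h1 := abs_mul_le' c5 d4
    have h2 := abs_mul_le' c8 d7
    have h3 : |k * (Pc1 * Qc0 - Ps1 * Qs0)| ≤
        l * (2 * m * q ^ 2 * (m * (8 * l * q ^ 3)) + 2 * m * q ^ 2 * (m * (8 * l * q ^ 3))) :=
      abs_mul_le' hkl (le_trans (abs_sub _ _) (add_le_add h1 h2))
    have h4 : |pa1 + k * (Pc1 * Qc0 - Ps1 * Qs0)| ≤ |pa1| + |k * (Pc1 * Qc0 - Ps1 * Qs0)| :=
      abs_add_le _ _
    have h5 : m * (l * q ^ 3) ≤ m ^ 2 * (l * q ^ 3) :=
      mul_le_mul_of_nonneg_right hmm (by positivity)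
    have h6 : l * (2 * m * q ^ 2 * (m * (8 * l * q ^ 3)) + 2 * m * q ^ 2 * (m * (8 * l * q ^ 3)))
        ≤ 32 * (m ^ 2 * (l * q ^ 3)) := by
      have : l * (2 * m * q ^ 2 * (m * (8 * l * q ^ 3)) + 2 * m * q ^ 2 * (m * (8 * l * q ^ 3)))
        = 32 * (m ^ 2 * (l * q ^ 3)) * (l * q ^ 2) := by ring
      rw [this]
      exact mul_le_of_le_one_right (by positivity) lq2
    have h7 : 0 ≤ m ^ 2 * (l * q ^ 3) := by positivity
    linarith
  · -- Fv
    have h1 := abs_mul_le' e4 b5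
    have h2 := abs_mul_le' e7 b8
    have h3 : |k * (Pc0 * Qc1 - Ps0 * Qs1)| ≤
        l * (m * (l * q ^ 5) * (9 * m) + m * (l * q ^ 5) * (9 * m)) :=
      abs_mul_le' hkl (le_trans (abs_sub _ _) (add_le_add h1 h2))
    have h4 : |pb1 + k * (Pc0 * Qc1 - Ps0 * Qs1)| ≤ |pb1| + |k * (Pc0 * Qc1 - Ps0 * Qs1)| :=
      abs_add_le _ _
    have h5 : m * (8 * l * q ^ 3) ≤ 8 * (m ^ 2 * (l * q ^ 3)) := by
      have := mul_le_mul_of_nonneg_right hmm (show 0 ≤ 8 * l * q ^ 3 by positivity)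
      linarith
    have h6 : l * (m * (l * q ^ 5) * (9 * m) + m * (l * q ^ 5) * (9 * m))
        ≤ 18 * (m ^ 2 * (l * q ^ 3)) := by
      have : l * (m * (l * q ^ 5) * (9 * m) + m * (l * q ^ 5) * (9 * m))
        = 18 * (m ^ 2 * (l * q ^ 3)) * (l * q ^ 2) := by ring
      rw [this]
      exact mul_le_of_le_one_right (by positivity) lq2
    have h7 : 0 ≤ m ^ 2 * (l * q ^ 3) := by positivity
    linarith
  · -- Fuv
    have key : k * (Pc1 * Qc1 - Ps1 * Qs1) + k * R / x ^ 2 * (cp * cm - sp * sm) / 4 =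
        k * (Pc1 * (Qc1 + sm / 2) - (Pc1 + R * q ^ 2 * sp / 2) * (sm / 2) -
          Ps1 * (Qs1 - cm / 2) - (Ps1 - R * q ^ 2 * cp / 2) * (cm / 2)) := by
      rw [hqe]; field_simp; ring
    rw [key]
    have h1 := abs_mul_le' c5 d5
    have hs2 : |sm / 2| ≤ 1 := by rw [abs_div, abs_two]; linarith
    have hc2 : |cm / 2| ≤ 1 := by rw [abs_div, abs_two]; linarith
    have h2 := abs_mul_le' e5 hs2
    have h3 := abs_mul_le' c8 d8
    have h4 := abs_mul_le' e8 hc2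
    have h5 : |Pc1 * (Qc1 + sm / 2) - (Pc1 + R * q ^ 2 * sp / 2) * (sm / 2) -
          Ps1 * (Qs1 - cm / 2) - (Ps1 - R * q ^ 2 * cp / 2) * (cm / 2)| ≤
        2 * m * q ^ 2 * (m * (8 * l * q ^ 3)) + m * (l * q ^ 5) * 1 +
        2 * m * q ^ 2 * (m * (8 * l * q ^ 3)) + m * (l * q ^ 5) * 1 := by
      refine le_trans (abs_sub _ _) (add_le_add (le_trans (abs_sub _ _)
        (add_le_add (le_trans (abs_sub _ _) (add_le_add h1 h2)) h3)) h4)
    have h6 := abs_mul_le' hkl h5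
    refine le_trans h6 ?_
    have h7 : l * (2 * m * q ^ 2 * (m * (8 * l * q ^ 3)) + m * (l * q ^ 5) * 1 +
        2 * m * q ^ 2 * (m * (8 * l * q ^ 3)) + m * (l * q ^ 5) * 1) =
        (32 * m ^ 2 + 2 * m) * (l ^ 2 * q ^ 5) := by ring
    rw [h7]
    refine mul_le_mul_of_nonneg_right ?_ (by positivity)
    have h8 : 0 ≤ m ^ 2 := sq_nonneg m
    linarith
  · -- Fuu
    have h1 := abs_mul_le' e6 d4
    have h2 := abs_mul_le' e9 d7
    have h3 : |k * (Pc2 * Qc0 - Ps2 * Qs0)| ≤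
        l * (m * L * x * (m * (8 * l * q ^ 3)) + m * L * x * (m * (8 * l * q ^ 3))) :=
      abs_mul_le' hkl (le_trans (abs_sub _ _) (add_le_add h1 h2))
    have h4 : |pa2 + k * (Pc2 * Qc0 - Ps2 * Qs0) - UP| ≤
        |pa2 - UP| + |k * (Pc2 * Qc0 - Ps2 * Qs0)| := by
      have : pa2 + k * (Pc2 * Qc0 - Ps2 * Qs0) - UP = (pa2 - UP) + k * (Pc2 * Qc0 - Ps2 * Qs0) := by
        ring
      rw [this]; exact abs_add_le _ _
    have h5 : m * (l * q ^ 3) ≤ m ^ 2 * l := by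
      have : l * q ^ 3 ≤ l := mul_le_of_le_one_right hl0.le hq3
      exact mul_le_mul hmm this (by positivity) (by positivity)
    have h6 : l * (m * L * x * (m * (8 * l * q ^ 3)) + m * L * x * (m * (8 * l * q ^ 3)))
        ≤ 16 * (m ^ 2 * l) := by
      have : l * (m * L * x * (m * (8 * l * q ^ 3)) + m * L * x * (m * (8 * l * q ^ 3)))
        = 16 * (m ^ 2 * l) * (L * x * (l * q)) * q ^ 2 := by ring
      rw [this, hxl1, mul_one]
      exact mul_le_of_le_one_right (by positivity) hq2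
    have h7 : 0 ≤ m ^ 2 * l := by positivity
    linarith
  · -- Fvv
    have h1 := abs_mul_le' e4 d6
    have h2 := abs_mul_le' e7 d9
    have h3 : |k * (Pc0 * Qc2 - Ps0 * Qs2)| ≤
        l * (m * (l * q ^ 5) * (m * L * x ^ 3) + m * (l * q ^ 5) * (m * L * x ^ 3)) :=
      abs_mul_le' hkl (le_trans (abs_sub _ _) (add_le_add h1 h2))
    have h4 : |pb2 + k * (Pc0 * Qc2 - Ps0 * Qs2) - UM| ≤
        |pb2 - UM| + |k * (Pc0 * Qc2 - Ps0 * Qs2)| := by
      have : pb2 + k * (Pc0 * Qc2 - Ps0 * Qs2) - UM = (pb2 - UM) + k * (Pc0 * Qc2 - Ps0 * Qs2) := by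
        ring
      rw [this]; exact abs_add_le _ _
    have h5 : m * (8 * l * q ^ 3) ≤ 8 * (m ^ 2 * l) := by
      have : l * q ^ 3 ≤ l := mul_le_of_le_one_right hl0.le hq3
      have := mul_le_mul hmm this (by positivity) (by positivity)
      linarith
    have h6 : l * (m * (l * q ^ 5) * (m * L * x ^ 3) + m * (l * q ^ 5) * (m * L * x ^ 3))
        ≤ 2 * (m ^ 2 * l) := by
      have : l * (m * (l * q ^ 5) * (m * L * x ^ 3) + m * (l * q ^ 5) * (m * L * x ^ 3))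
        = 2 * (m ^ 2 * l) * (L * x ^ 3 * (l * q ^ 3)) * q ^ 2 := by ring
      rw [this, hxl, mul_one]
      exact mul_le_of_le_one_right (by positivity) hq2
    have h7 : 0 ≤ m ^ 2 * l := by positivity
    linarith

end Pool.Agent.TH168.Mil
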