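import Pool.Agent.TH168.Mil.Asm1

set_option autoImplicit false

namespace Pool.Agent.TH168.Mil

open Set Filter Topology MeasureTheory
open scoped ContDiff

noncomputable section

def t0 (θ y : ℝ) : ℝ := eta * (-2 * Cc y * Real.sin (2 * θ) + 2 * Dd y * Real.cos (2 * θ))

def s0 (θ y : ℝ) : ℝ :=
  Real.sinh y + eta * (a1 y + C1 y * Real.cos (2 * θ) + D1 y * Real.sin (2 * θ))

def tt0 (θ y : ℝ) : ℝ := eta * (-4 * Cc y * Real.cos (2 * θ) - 4 * Dd y * Real.sin (2 * θ))

def ts0 (θ y : ℝ) : ℝ := eta * (-2 * C1 y * Real.sin (2 * θ) + 2 * D1 y * Real.cos (2 * θ))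

def ss0 (θ y : ℝ) : ℝ :=
  Real.cosh y + eta * (a0 y + al y + (Bc y - 3 * Cc y) * Real.cos (2 * θ) +
        (Bs y - 3 * Dd y) * Real.sin (2 * θ))

end

theorem jet0 (θ : ℝ) {y : ℝ} (hy : 0 < y) :
    HasJet f0 θ y (f0 θ y) (t0 θ y) (s0 θ y) (tt0 θ y) (ts0 θ y) (ss0 θ y) :=
  hasJet_f0 (fun _ h => hasDerivAt_Cc h) (fun _ h => hasDerivAt_Dd h)
    (fun _ h => hasDerivAt_C1 h) (fun _ h => hasDerivAt_D1 h) (fun _ h => hasDerivAt_a0 h)
    (fun _ h => hasDerivAt_a1 h) θ hy

theorem T1_id (θ y : ℝ) : ss0 θ y - tt0 θ y - f0 θ y = eta * T10 θ y := by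
  unfold ss0 tt0 f0 T10; ring

theorem T2_id (θ y : ℝ) : 2 * ts0 θ y = eta * T20 θ y := by
  unfold ts0 T20; ring

theorem cosh_le_two {y : ℝ} (hy : 0 < y) (h : y ≤ 1 / 1000) : Real.cosh y ≤ 2 := by
  have h1 : Real.cosh y ≤ Real.cosh 1 := by
    rw [Real.cosh_le_cosh, abs_of_pos hy]; norm_num; linarith
  have h2 : Real.cosh 1 ≤ 2 := by
    rw [Real.cosh_eq]
    have := Real.exp_one_lt_d9
    have h3 : Real.exp (-1) ≤ 1 := Real.exp_le_one_iff.mpr (by norm_num)
    linarith
  linarith

theorem sinh_le {y : ℝ} (hy : 0 < y) (h : y ≤ 1 / 1000) : Real.sinh y ≤ 1 / 100 := by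
  -- sinh y ≤ y cosh y ≤ 2 y
  have h1 : Real.sinh y ≤ y * Real.cosh y := by
    have := Real.self_le_sinh_iff.mpr hy.le
    -- use tanh y ≤ y
    have h2 : Real.tanh y ≤ y := by
      by_contra hcon
      rw [not_le] at hcon
      -- use concavity: derivative; fallback below
      have hmono : MonotoneOn (fun t : ℝ => t * Real.cosh t - Real.sinh t) (Ici 0) := by
        apply monotoneOn_of_deriv_nonneg (convex_Ici 0)
        · fun_prop
        · exact (by fun_prop : Differentiable ℝ (fun t : ℝ => t * Real.cosh t - Real.sinh t)).differentiableOn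
        · intro t ht
          rw [interior_Ici] at ht
          have : deriv (fun t : ℝ => t * Real.cosh t - Real.sinh t) t = t * Real.sinh t := by
            have : HasDerivAt (fun t : ℝ => t * Real.cosh t - Real.sinh t)
                (1 * Real.cosh t + t * Real.sinh t - Real.cosh t) t :=
              ((hasDerivAt_id t).mul (Real.hasDerivAt_cosh t)).sub (Real.hasDerivAt_sinh t)
            rw [this.deriv]; ring
          rw [this]
          exact mul_nonneg (le_of_lt ht) (Real.sinh_nonneg_iff.mpr (le_of_lt ht))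
      have h3 := hmono (show (0:ℝ) ∈ Ici 0 from by simp) (show y ∈ Ici 0 from hy.le) hy.le
      simp at h3
      rw [Real.tanh_eq_sinh_div_cosh, lt_div_iff₀ (Real.cosh_pos y)] at hcon
      linarith
    rw [Real.tanh_eq_sinh_div_cosh, div_le_iff₀ (Real.cosh_pos y)] at h2
    exact h2
  have h2 := cosh_le_two hy h
  nlinarith

theorem exp_facts {y : ℝ} (hy : 0 < y) : 0 < Real.exp (-y) ∧ Real.exp (-y) ≤ 1 ∧
    Real.cosh y * Real.exp (-y) ≤ 1 ∧ Real.sinh y * Real.exp (-y) ≤ 1 ∧
    0 < Real.sinh y ∧ 1 ≤ Real.cosh y := by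
  have h1 : Real.exp y * Real.exp (-y) = 1 := by rw [← Real.exp_add]; simp
  have h2 : 0 < Real.exp (-y) := Real.exp_pos _
  have h3 : Real.exp (-y) ≤ 1 := Real.exp_le_one_iff.mpr (by linarith)
  refine ⟨h2, h3, ?_, ?_, Real.sinh_pos_iff.mpr hy, Real.one_le_cosh y⟩
  · rw [Real.cosh_eq]; nlinarith
  · rw [Real.sinh_eq]; nlinarith

theorem E_bound (θ : ℝ) {y : ℝ} (hy : 0 < y) :
    |Real.cosh y * (tt0 θ y + f0 θ y) - Real.sinh y * s0 θ y - 1| ≤ 1 / 1000 := by
  have key : Real.cosh y * (tt0 θ y + f0 θ y) - Real.sinh y * s0 θ y - 1 =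
      eta * (Real.cosh y * (a0 y - 3 * Cc y * Real.cos (2 * θ) - 3 * Dd y * Real.sin (2 * θ)) -
        (Real.sinh y * a1 y + Real.sinh y * C1 y * Real.cos (2 * θ) +
          Real.sinh y * D1 y * Real.sin (2 * θ))) := by
    unfold tt0 f0 s0
    have := Real.cosh_sq y
    linear_combination this
  rw [key]
  have hc := Real.abs_cos_le_one (2 * θ)
  have hs := Real.abs_sin_le_one (2 * θ)
  obtain ⟨he0, he1, he2, he3, hsp, hcp⟩ := exp_facts hy
  have hE : |Real.cosh y * (a0 y - 3 * Cc y * Real.cos (2 * θ) - 3 * Dd y * Real.sin (2 * θ)) -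
        (Real.sinh y * a1 y + Real.sinh y * C1 y * Real.cos (2 * θ) +
          Real.sinh y * D1 y * Real.sin (2 * θ))| ≤ 10 := by
    rcases le_or_gt (phi y) 0 with h | h
    · obtain ⟨g1, g2, g3, g4, g5, g6, g7, g8, g9⟩ := cap hy h
      have g10 : Dd y = -Real.exp (-y) := by unfold Dd; rw [g4]; ring
      rw [g1, g2, g3, g8, g9, g10]
      have : Real.cosh y * (0 - 3 * 0 * Real.cos (2 * θ) - 3 * -Real.exp (-y) * Real.sin (2 * θ)) -
        (Real.sinh y * 0 + Real.sinh y * 0 * Real.cos (2 * θ) +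
          Real.sinh y * Real.exp (-y) * Real.sin (2 * θ)) =
          (3 * (Real.cosh y * Real.exp (-y)) - Real.sinh y * Real.exp (-y)) * Real.sin (2 * θ) := by
        ring
      rw [this, abs_mul]
      have h1 : |3 * (Real.cosh y * Real.exp (-y)) - Real.sinh y * Real.exp (-y)| ≤ 4 := by
        have h2 : 0 ≤ Real.cosh y * Real.exp (-y) := by positivity
        have h3 : 0 ≤ Real.sinh y * Real.exp (-y) := by positivity
        rw [abs_le]; constructor <;> linarith
      calc _ ≤ 4 * 1 := mul_le_mul h1 hs (abs_nonneg _) (by norm_num)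
        _ ≤ 10 := by norm_num
    · have hys := y_small hy h.le
      have hc2 := cosh_le_two hy hys
      have hs2 := sinh_le hy hys
      obtain ⟨a1', a2'⟩ := a0_bound' continuousOn_al (fun y hy => al_abs hy)
        (fun y hy => by
          have h0 : 0 < y := by linarith
          exact (cap h0 (phi_nonpos hy)).2.2.2.2.2.2.1) hy
      obtain ⟨b1, b2⟩ := Cc_bound hy
      obtain ⟨b3, b4⟩ := C1_bound hy
      have b5 : |Dd y| ≤ 2 := by
        unfold Dd
        have := abs_add_le (-Real.exp (-y)) (Dt y)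
        rw [abs_neg, abs_of_pos he0] at this
        linarith
      have m1 : |3 * Cc y * Real.cos (2 * θ)| ≤ 1 := by
        rw [abs_mul, abs_mul, abs_of_pos (by norm_num : (0:ℝ) < 3)]
        calc 3 * |Cc y| * |Real.cos (2 * θ)| ≤ 3 * (1 / 200) * 1 := by gcongr
          _ ≤ 1 := by norm_num
      have m2 : |3 * Dd y * Real.sin (2 * θ)| ≤ 3 * (1 + 1 / 200) := by
        have b6 : |Dd y| ≤ 1 + 1 / 200 := by
          unfold Dd
          have := abs_add_le (-Real.exp (-y)) (Dt y)
          rw [abs_neg, abs_of_pos he0] at this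
          linarith
        rw [abs_mul, abs_mul, abs_of_pos (by norm_num : (0:ℝ) < 3)]
        calc 3 * |Dd y| * |Real.sin (2 * θ)| ≤ 3 * (1 + 1 / 200) * 1 := by gcongr
          _ = _ := by ring
      have m1' : |3 * Cc y * Real.cos (2 * θ)| ≤ 3 / 200 := by
        rw [abs_mul, abs_mul, abs_of_pos (by norm_num : (0:ℝ) < 3)]
        calc 3 * |Cc y| * |Real.cos (2 * θ)| ≤ 3 * (1 / 200) * 1 := by gcongr
          _ = _ := by ring
      have m3 : |Real.sinh y * C1 y * Real.cos (2 * θ)| ≤ 1 / 10 := by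
        rw [abs_mul, abs_mul, abs_of_pos hsp]
        calc Real.sinh y * |C1 y| * |Real.cos (2 * θ)| ≤ (1 / 100) * (9 / 2) * 1 := by gcongr
          _ ≤ 1 / 10 := by norm_num
      have m4 : |Real.sinh y * D1 y * Real.sin (2 * θ)| ≤ 1 / 10 := by
        rw [abs_mul, abs_mul, abs_of_pos hsp]
        calc Real.sinh y * |D1 y| * |Real.sin (2 * θ)| ≤ (1 / 100) * (11 / 2) * 1 := by gcongr
          _ ≤ 1 / 10 := by norm_num
      have m5 : |a0 y - 3 * Cc y * Real.cos (2 * θ) - 3 * Dd y * Real.sin (2 * θ)| ≤ 4 := by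
        rw [abs_le] at a1' m1' m2 ⊢
        constructor <;> linarith [a1'.1, a1'.2, m1'.1, m1'.2, m2.1, m2.2]
      have m6 : |Real.cosh y *
          (a0 y - 3 * Cc y * Real.cos (2 * θ) - 3 * Dd y * Real.sin (2 * θ))| ≤ 8 := by
        have hc3 : |Real.cosh y| ≤ 2 := by rw [abs_of_pos (by linarith : 0 < Real.cosh y)]; exact hc2
        exact le_trans (abs_mul_le' hc3 m5) (by norm_num)
      rw [abs_le] at a2' m3 m4 m6 ⊢
      constructor <;> linarith [a2'.1, a2'.2, m3.1, m3.2, m4.1, m4.2, m6.1, m6.2]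
  have : |eta| ≤ 1 / 10 ^ 6 := by unfold eta; rw [abs_of_pos (by norm_num)]
  exact le_trans (abs_mul_le' this hE) (by norm_num)

theorem T10_lower (θ : ℝ) {y : ℝ} (hy : 0 < y) : -200 ≤ Real.cosh y * T10 θ y := by
  have hc := Real.abs_cos_le_one (2 * θ)
  have hs := Real.abs_sin_le_one (2 * θ)
  obtain ⟨he0, he1, he2, he3, hsp, hcp⟩ := exp_facts hy
  rcases le_or_gt (phi y) 0 with h | h
  · obtain ⟨g1, g2, g3, g4, g5, g6, g7, g8, g9⟩ := cap hy h
    unfold T10
    rw [g5, g6, g7]
    have : Real.cosh y * (0 + 0 * Real.cos (2 * θ) + -4 * Real.exp (-y) * Real.sin (2 * θ)) =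
        -4 * (Real.cosh y * Real.exp (-y)) * Real.sin (2 * θ) := by ring
    rw [this]
    rw [abs_le] at hs
    have h2 : 0 ≤ Real.cosh y * Real.exp (-y) := by positivity
    nlinarith [hs.1, hs.2]
  · have hys := y_small hy h.le
    have hc2 := cosh_le_two hy hys
    have hT : -50 ≤ T10 θ y := by
      obtain ⟨b1, b2⟩ := Cc_bound hy
      rcases le_or_gt (3 / 10) (phi y) with h3 | h3
      · rw [T10_eq (sg_one h3)]
        have hal : 0 ≤ al y := by
          rw [al_eq h3]
          have ht := (tau_mem (phi y)).1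
          have hk : 0 ≤ coth y := by unfold coth; positivity
          have h5 : |Cc y * Real.cos (phi y)| ≤ 1 / 200 :=
            le_trans (abs_mul_le' b1 (Real.abs_cos_le_one _)) (by norm_num)
          have h6 : |Dt y * Real.sin (phi y)| ≤ 1 / 200 :=
            le_trans (abs_mul_le' b2 (Real.abs_sin_le_one _)) (by norm_num)
          rw [abs_le] at h5 h6
          have : 0 ≤ 2 * tau (phi y) * coth y := by positivity
          linarith [h5.1, h5.2, h6.1, h6.2]
        have hbe : |be y| ≤ 5 := by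
          rw [be_eq h3]
          have h5 : |Cc y * Real.sin (phi y)| ≤ 1 / 200 :=
            le_trans (abs_mul_le' b1 (Real.abs_sin_le_one _)) (by norm_num)
          have h6 : |Dt y * Real.cos (phi y)| ≤ 1 / 200 :=
            le_trans (abs_mul_le' b2 (Real.abs_cos_le_one _)) (by norm_num)
          rw [abs_le] at h5 h6 ⊢
          constructor <;> linarith [h5.1, h5.2, h6.1, h6.2]
        have hs1 := Real.abs_sin_le_one (θ - phi y / 2)
        have hc1 := Real.abs_cos_le_one (θ - phi y / 2)
        generalize Real.sin (θ - phi y / 2) = S at *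
        generalize Real.cos (θ - phi y / 2) = K at *
        have h7 : |be y * (S * K)| ≤ 5 :=
          le_trans (abs_mul_le' hbe (abs_mul_le' hs1 hc1)) (by norm_num)
        rw [abs_le] at h7
        have h8 : 0 ≤ al y * S ^ 2 := by positivity
        have : 2 * S * (al y * S - be y * K) = 2 * (al y * S ^ 2) - 2 * (be y * (S * K)) := by ring
        rw [this]
        linarith [h7.1, h7.2]
      · have htau : tau (phi y) = 0 := tau_zero (by linarith)
        obtain ⟨hg0, hg1⟩ := sg_mem y
        have hsg : |sg y| ≤ 1 := by rw [abs_of_nonneg hg0]; exact hg1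
        have hsg' : |-sg y| ≤ 1 := by rw [abs_neg]; exact hsg
        have hBc : |Bc y| ≤ 8 := by
          unfold Bc ic
          rw [htau]
          have h5 : |sg y * (-3 * Real.cos (phi y) + 4 * Real.sin (phi y))| ≤ 7 := by
            have : |(-3 * Real.cos (phi y) + 4 * Real.sin (phi y))| ≤ 7 := by
              have q1 := Real.abs_cos_le_one (phi y)
              have q2 := Real.abs_sin_le_one (phi y)
              rw [abs_le] at q1 q2 ⊢
              constructor <;> linarith [q1.1, q1.2, q2.1, q2.2]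
            exact le_trans (abs_mul_le' hsg this) (by norm_num)
          rw [abs_le] at h5 b1 ⊢
          constructor <;> nlinarith [h5.1, h5.2, b1.1, b1.2]
        have hBs : |Bs y| ≤ 16 := by
          unfold Bs js
          rw [htau]
          have h5 : |sg y * (-3 * Real.sin (phi y) - 4 * Real.cos (phi y) +
              4 * Real.exp (-y))| ≤ 11 := by
            have : |(-3 * Real.sin (phi y) - 4 * Real.cos (phi y) + 4 * Real.exp (-y))| ≤ 11 := by
              have q1 := Real.abs_cos_le_one (phi y)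
              have q2 := Real.abs_sin_le_one (phi y)
              rw [abs_le] at q1 q2 ⊢
              constructor <;> linarith [q1.1, q1.2, q2.1, q2.2]
            exact le_trans (abs_mul_le' hsg this) (by norm_num)
          rw [abs_le] at h5 b2 ⊢
          constructor <;> nlinarith [h5.1, h5.2, b2.1, b2.2]
        have hal : |al y| ≤ 24 := by
          unfold al
          have : |Bc y * Real.cos (phi y) + Bs y * Real.sin (phi y)| ≤ 8 * 1 + 16 * 1 :=
            le_trans (abs_add_le _ _) (add_le_add (abs_mul_le' hBc (Real.abs_cos_le_one _))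
              (abs_mul_le' hBs (Real.abs_sin_le_one _)))
          exact le_trans (abs_mul_le' hsg' this) (by norm_num)
        have h1 : |Bc y * Real.cos (2 * θ)| ≤ 8 :=
          le_trans (abs_mul_le' hBc hc) (by norm_num)
        have h2 : |Bs y * Real.sin (2 * θ)| ≤ 16 :=
          le_trans (abs_mul_le' hBs hs) (by norm_num)
        unfold T10
        rw [abs_le] at hal h1 h2
        linarith [hal.1, h1.1, h2.1]
    nlinarith

theorem N_abs' {θ y : ℝ} (hy : 0 < y) : |T20 θ y| ≤ 40 := by
  obtain ⟨h1, h2⟩ := C1_bound hy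
  have hc := Real.abs_cos_le_one (2 * θ)
  have hs := Real.abs_sin_le_one (2 * θ)
  unfold T20
  rw [abs_mul, abs_of_pos (by norm_num : (0:ℝ) < 4)]
  have h3 : |D1 y * Real.cos (2 * θ) - C1 y * Real.sin (2 * θ)| ≤ 10 :=
    le_trans (abs_sub _ _) (le_trans (add_le_add (abs_mul_le' h2 hc) (abs_mul_le' h1 hs))
      (by norm_num))
  linarith

/-- bounds for the background radii of curvature -/
theorem bg_R (θ : ℝ) {y : ℝ} (hy : 0 < y) :
    |Real.cosh y * (tt0 θ y + f0 θ y) - Real.sinh y * s0 θ y - 1| ≤ 1 / 1000 ∧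
    99 / 100 ≤ Real.cosh y * ss0 θ y - Real.sinh y * s0 θ y ∧
    |Real.cosh y * ts0 θ y| ≤ 1 / 1000 := by
  have h1 := E_bound θ hy
  refine ⟨h1, ?_, ?_⟩
  · have h2 := T10_lower θ hy
    have h3 := T1_id θ y
    have h4 : Real.cosh y * ss0 θ y - Real.sinh y * s0 θ y =
        (Real.cosh y * (tt0 θ y + f0 θ y) - Real.sinh y * s0 θ y) +
          eta * (Real.cosh y * T10 θ y) := by
      linear_combination Real.cosh y * h3
    rw [h4]
    rw [abs_le] at h1
    have : eta = 1 / 10 ^ 6 := rfl
    rw [this]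
    linarith [h1.1]
  · have h3 : Real.cosh y * ts0 θ y = eta / 2 * (Real.cosh y * T20 θ y) := by
      have := T2_id θ y
      linear_combination Real.cosh y / 2 * this
    rw [h3]
    have h4 : |Real.cosh y * T20 θ y| ≤ 80 := by
      obtain ⟨he0, he1, he2, he3, hsp, hcp⟩ := exp_facts hy
      rcases le_or_gt (phi y) 0 with h | h
      · obtain ⟨g1, g2, g3, g4, g5, g6, g7, g8, g9⟩ := cap hy h
        unfold T20
        rw [g1, g2]
        have : Real.cosh y * (4 * (Real.exp (-y) * Real.cos (2 * θ) - 0 * Real.sin (2 * θ))) =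
          4 * (Real.cosh y * Real.exp (-y)) * Real.cos (2 * θ) := by ring
        rw [this]
        have hc := Real.abs_cos_le_one (2 * θ)
        have hh : |4 * (Real.cosh y * Real.exp (-y))| ≤ 4 := by
          rw [abs_of_nonneg (by positivity)]; linarith
        exact le_trans (abs_mul_le' hh hc) (by norm_num)
      · have hys := y_small hy h.le
        have hc2 := cosh_le_two hy hys
        have hN := N_abs' (θ := θ) hy
        have hc3 : |Real.cosh y| ≤ 2 := by
          obtain ⟨_, _, _, _, _, hcp⟩ := exp_facts hy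
          rw [abs_of_pos (by linarith : 0 < Real.cosh y)]; exact hc2
        exact le_trans (abs_mul_le' hc3 hN) (by norm_num)
    have : |eta / 2| ≤ 1 / (2 * 10 ^ 6) := by
      unfold eta; rw [abs_of_pos (by norm_num)]; norm_num
    exact le_trans (abs_mul_le' this h4) (by norm_num)

end Pool.Agent.TH168.Mil
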