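import Pool.Agent.TH168.Mil.Asm2

set_option autoImplicit false

namespace Pool.Agent.TH168.Mil

open Set Filter Topology MeasureTheory
open scoped ContDiff

theorem Up_bound (x S : ℝ) : |Up x S| ≤ 26 / 1000 := by
  obtain ⟨h0, h1⟩ := rho_mem x
  have hr : |rho x| ≤ 1 := by rw [abs_of_nonneg h0]; exact h1
  have h2 : |1 / 40 * rho x * Real.sin S| ≤ 1 / 40 * 1 * 1 :=
    abs_mul_le' (abs_mul_le' (by rw [abs_of_pos (by norm_num)]) hr) (Real.abs_sin_le_one S)
  have h3 : |4 * eta * rho x ^ 2 * Real.cos (2 * S)| ≤ 4 / 10 ^ 6 * 1 * 1 := by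
    refine abs_mul_le' (abs_mul_le' ?_ ?_) (Real.abs_cos_le_one _)
    · unfold eta; rw [abs_of_pos (by norm_num)]; norm_num
    · rw [abs_of_nonneg (sq_nonneg _)]; exact pow_le_one₀ h0 h1
  unfold Up
  exact le_trans (abs_sub _ _) (le_trans (add_le_add h2 h3) (by norm_num))

theorem Um_bound (x S : ℝ) : |Um x S| ≤ 26 / 1000 := by
  obtain ⟨h0, h1⟩ := rho_mem x
  have hr : |rho x| ≤ 1 := by rw [abs_of_nonneg h0]; exact h1
  have h2 : |1 / 40 * rho x * Real.sin S| ≤ 1 / 40 * 1 * 1 :=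
    abs_mul_le' (abs_mul_le' (by rw [abs_of_pos (by norm_num)]) hr) (Real.abs_sin_le_one S)
  have h3 : |4 * eta * rho x ^ 2 * Real.cos (2 * S)| ≤ 4 / 10 ^ 6 * 1 * 1 := by
    refine abs_mul_le' (abs_mul_le' ?_ ?_) (Real.abs_cos_le_one _)
    · unfold eta; rw [abs_of_pos (by norm_num)]; norm_num
    · rw [abs_of_nonneg (sq_nonneg _)]; exact pow_le_one₀ h0 h1
  unfold Um
  exact le_trans (abs_add_le _ _) (le_trans (add_le_add h2 h3) (by norm_num))

theorem jetF {L : ℝ} (hL : 1 ≤ L) (θ y : ℝ) :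
    HasJet (FF L) θ y (FF L θ y) (Fu L θ y + Fv L θ y) (Fu L θ y - Fv L θ y)
      (Fuu L θ y + 2 * Fuv L θ y + Fvv L θ y) (Fuu L θ y - Fvv L θ y)
      (Fuu L θ y - 2 * Fuv L θ y + Fvv L θ y) :=
  hasJet_FF (pa_smooth hL) (pb_smooth hL) (Pc_smooth hL) (Ps_smooth hL) (Qc_smooth hL)
    (Qs_smooth hL) θ y

/-- elementary bound of the pattern numbers in terms of `l = 1/L`, `q = 1/x` -/
theorem pattern_bounds2 : ∃ M : ℝ, 1 ≤ M ∧ ∀ L : ℝ, 1 ≤ L → ∀ θ y : ℝ, 0 ≤ θ - y → 0 ≤ θ + y →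
    0 ≤ y → Real.exp (θ + y) ≤ 2 * Real.exp (θ - y) →
    |FF L θ y| ≤ M * ((1 / L) ^ 2 * (1 / Real.exp (θ + y)) ^ 5) ∧
    |Fu L θ y| ≤ M * (1 / L * (1 / Real.exp (θ + y)) ^ 3) ∧
    |Fv L θ y| ≤ M * (1 / L * (1 / Real.exp (θ + y)) ^ 3) ∧
    |Fuv L θ y| ≤ M * (1 / L * (1 / Real.exp (θ + y)) ^ 2) ∧
    |Fuu L θ y| ≤ 26 / 1000 + M * (1 / L) ∧ |Fvv L θ y| ≤ 26 / 1000 + M * (1 / L) := by
  obtain ⟨M, hM, h⟩ := pattern_bounds
  refine ⟨M + 1, by linarith, ?_⟩
  intro L hL θ y hv hu hy h2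
  have hzx : Real.exp (θ - y) ≤ Real.exp (θ + y) := Real.exp_le_exp.mpr (by linarith)
  obtain ⟨h1, h3, h4, h5, h6, h7⟩ := h L hL θ y hv hu h2 hzx
  have hx1 : 1 ≤ Real.exp (θ + y) := Real.one_le_exp hu
  have hL0 : 0 < L := by linarith
  obtain ⟨hr0, hr1⟩ := rho_mem (Real.exp (θ + y))
  have hUp := Up_bound (Real.exp (θ + y)) (Sp L (θ + y))
  have hUm := Um_bound (Real.exp (θ - y) + 1 / 500) (Sm L (θ - y))
  obtain ⟨hk0, hk1⟩ := kap_eq hL
  generalize rho (Real.exp (θ + y)) = R at *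
  generalize Real.exp (θ + y) = x at *
  have hx0 : 0 < x := by linarith
  have hc := Real.abs_cos_le_one ((Sp L (θ + y) + Sm L (θ - y)) / 2)
  generalize Real.cos ((Sp L (θ + y) + Sm L (θ - y)) / 2) = K at *
  refine ⟨?_, ?_, ?_, ?_, ?_, ?_⟩
  · refine le_trans h1 ?_
    have : M / (L ^ 2 * x ^ 5) = M * ((1 / L) ^ 2 * (1 / x) ^ 5) := by field_simp
    rw [this]
    exact mul_le_mul_of_nonneg_right (by linarith) (by positivity)
  · refine le_trans h3 ?_
    have : M / (L * x ^ 3) = M * (1 / L * (1 / x) ^ 3) := by field_simp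
    rw [this]
    exact mul_le_mul_of_nonneg_right (by linarith) (by positivity)
  · refine le_trans h4 ?_
    have : M / (L * x ^ 3) = M * (1 / L * (1 / x) ^ 3) := by field_simp
    rw [this]
    exact mul_le_mul_of_nonneg_right (by linarith) (by positivity)
  · have e1 : |kap L * R / x ^ 2 * K / 4| ≤ 1 / L * (1 / x) ^ 2 := by
      have e2 : kap L * R / x ^ 2 * K / 4 = kap L * (R * (1 / x) ^ 2 * (K / 4)) := by field_simp
      rw [e2]
      have e3 : |kap L| ≤ 1 / L := by rw [abs_of_nonneg hk0]; exact hk1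
      have e4 : |R * (1 / x) ^ 2 * (K / 4)| ≤ 1 * (1 / x) ^ 2 * 1 := by
        refine abs_mul_le' (abs_mul_le' ?_ ?_) ?_
        · rw [abs_of_nonneg hr0]; exact hr1
        · rw [abs_of_nonneg (by positivity)]
        · rw [abs_div, abs_of_pos (by norm_num : (0:ℝ) < 4)]; linarith
      refine le_trans (abs_mul_le' e3 e4) (le_of_eq (by ring))
    have e5 : M / (L ^ 2 * x ^ 5) ≤ M * (1 / L * (1 / x) ^ 2) := by
      have : M / (L ^ 2 * x ^ 5) = M * ((1 / L * (1 / x) ^ 2) * (1 / L * (1 / x) ^ 3)) := by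
        field_simp
      rw [this]
      refine mul_le_mul_of_nonneg_left ?_ hM.le
      refine mul_le_of_le_one_right (by positivity) ?_
      have a1 : 1 / L ≤ 1 := by rw [div_le_one hL0]; exact hL
      have a2 : (1 / x) ^ 3 ≤ 1 := pow_le_one₀ (by positivity) (by rw [div_le_one hx0]; exact hx1)
      calc 1 / L * (1 / x) ^ 3 ≤ 1 * 1 := mul_le_mul a1 a2 (by positivity) zero_le_one
        _ = 1 := one_mul 1
    have e6 : |Fuv L θ y| ≤ |Fuv L θ y + kap L * R / x ^ 2 * K / 4| + |kap L * R / x ^ 2 * K / 4| := by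
      have := abs_sub (Fuv L θ y + kap L * R / x ^ 2 * K / 4) (kap L * R / x ^ 2 * K / 4)
      simpa using this
    have : (M + 1) * (1 / L * (1 / x) ^ 2) = M * (1 / L * (1 / x) ^ 2) + 1 / L * (1 / x) ^ 2 := by
      ring
    rw [this]
    linarith
  · have e1 : |Fuu L θ y| ≤ |Fuu L θ y - Up x (Sp L (θ + y))| + |Up x (Sp L (θ + y))| := by
      have := abs_add_le (Fuu L θ y - Up x (Sp L (θ + y))) (Up x (Sp L (θ + y)))
      simpa using this
    have e2 : M / L = M * (1 / L) := by ring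
    have e3 : 0 ≤ 1 / L := by positivity
    rw [e2] at h6
    linarith
  · have e1 : |Fvv L θ y| ≤ |Fvv L θ y - Um (Real.exp (θ - y) + 1 / 500) (Sm L (θ - y))| +
        |Um (Real.exp (θ - y) + 1 / 500) (Sm L (θ - y))| := by
      have := abs_add_le (Fvv L θ y - Um (Real.exp (θ - y) + 1 / 500) (Sm L (θ - y)))
        (Um (Real.exp (θ - y) + 1 / 500) (Sm L (θ - y)))
      simpa using this
    have e2 : M / L = M * (1 / L) := by ring
    have e3 : 0 ≤ 1 / L := by positivity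
    rw [e2] at h7
    linarith

/-- two-jet of the cut-off pattern -/
theorem chiF_jet : ∃ C : ℝ, 0 < C ∧ ∀ L : ℝ, 1 ≤ L → ∀ θ y : ℝ, 0 < y → 2 / 5 ≤ phi y →
    |4 * (θ - phi y / 2) * coth y| ≤ 1 →
    ∃ v t s tt ts ss : ℝ, HasJet (fun a b => chi a b * FF L a b) θ y v t s tt ts ss ∧
      |v| ≤ C / L ∧ |s| ≤ C / L ∧ |tt| ≤ 6 / 100 + C / L ∧ |ts| ≤ 6 / 100 + C / L ∧
      |ss| ≤ 6 / 100 + C / L ∧ |ss - tt - v| ≤ C / L * (1 / Real.exp (θ + y)) := by
  obtain ⟨M, hM, hb⟩ := pattern_bounds2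
  obtain ⟨K, hK, hchi⟩ := chi_jet
  obtain ⟨m, hm1, hm2⟩ : ∃ m : ℝ, M ≤ m ∧ K ≤ m := ⟨max M K, le_max_left _ _, le_max_right _ _⟩
  have hm0 : 1 ≤ m := by linarith
  refine ⟨10 ^ 14 * m ^ 2, by positivity, ?_⟩
  intro L hL θ y hy hphi hmu
  obtain ⟨z1, z2, z3, z4, z5, z6, z7, z8, z9⟩ := zone_facts hy hphi hmu
  obtain ⟨ct, cs, ctt, cts, css, hj, k1, k2, k3, k4, k5⟩ := hchi θ y hy (by linarith) hmu
  obtain ⟨b1, b2, b3, b4, b5, b6⟩ := hb L hL θ y z5 z6 hy.le z7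
  have hjF := jetF hL θ y
  have hmul := hj.mul hjF
  refine ⟨_, _, _, _, _, _, hmul, ?_⟩
  obtain ⟨hc0, hc1⟩ := chi_mem θ y
  have hx1 : 1 ≤ Real.exp (θ + y) := Real.one_le_exp z6
  have hL0 : 0 < L := by linarith
  clear hmul hjF hj hchi hb z9 z8 z7 z5 z6 z4 z1 hmu hphi
  generalize chi θ y = c at *
  generalize FF L θ y = F at *
  generalize Fu L θ y = U at *
  generalize Fv L θ y = V at *
  generalize Fuv L θ y = UV at *
  generalize Fuu L θ y = UU at *
  generalize Fvv L θ y = VV at *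
  generalize Real.exp (θ + y) = x at *
  generalize coth y = k at *
  have hx0 : 0 < x := by linarith
  have hk0 : 0 < k := by linarith
  obtain ⟨l, hl0, hl1, hle⟩ : ∃ l : ℝ, 0 < l ∧ l ≤ 1 ∧ l = 1 / L :=
    ⟨1 / L, by positivity, by rw [div_le_one hL0]; exact hL, rfl⟩
  obtain ⟨q, hq0, hq1, hqe⟩ : ∃ q : ℝ, 0 < q ∧ q ≤ 1 ∧ q = 1 / x :=
    ⟨1 / x, by positivity, by rw [div_le_one hx0]; exact hx1, rfl⟩
  rw [← hle, ← hqe] at b1 b2 b3 b4
  rw [← hle] at b5 b6
  have hdiv : ∀ C : ℝ, C / L = C * l := by intro C; rw [hle]; ring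
  rw [hdiv, ← hqe]
  have hxq : x * q = 1 := by rw [hqe]; field_simp
  have hkq : k * q ≤ 1300 := by
    have := mul_le_mul_of_nonneg_right z3 hq0.le
    have e : 1300 * x * q = 1300 := by rw [mul_assoc, hxq, mul_one]
    linarith
  have hkq0 : 0 ≤ k * q := by positivity
  have p2 : (k * q) ^ 2 ≤ 1300 ^ 2 := pow_le_pow_left₀ hkq0 hkq 2
  have p3 : (k * q) ^ 3 ≤ 1300 ^ 3 := pow_le_pow_left₀ hkq0 hkq 3
  have p4 : (k * q) ^ 4 ≤ 1300 ^ 4 := pow_le_pow_left₀ hkq0 hkq 4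
  have hm0' : 0 < m := by linarith
  -- chi bounds
  have c0 : |c| ≤ 1 := by rw [abs_of_nonneg hc0]; exact hc1
  have k1' : |ct| ≤ m * k := le_trans k1 (mul_le_mul_of_nonneg_right hm2 hk0.le)
  have k2' : |cs| ≤ m * k ^ 2 := le_trans k2 (mul_le_mul_of_nonneg_right hm2 (by positivity))
  have k3' : |ctt| ≤ m * k ^ 2 := le_trans k3 (mul_le_mul_of_nonneg_right hm2 (by positivity))
  have k4' : |cts| ≤ m * k ^ 3 := le_trans k4 (mul_le_mul_of_nonneg_right hm2 (by positivity))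
  have k5' : |css| ≤ m * k ^ 4 := le_trans k5 (mul_le_mul_of_nonneg_right hm2 (by positivity))
  -- pattern bounds
  have f0' : |F| ≤ m * (l ^ 2 * q ^ 5) :=
    le_trans b1 (mul_le_mul_of_nonneg_right hm1 (by positivity))
  have fu : |U| ≤ m * (l * q ^ 3) := le_trans b2 (mul_le_mul_of_nonneg_right hm1 (by positivity))
  have fv : |V| ≤ m * (l * q ^ 3) := le_trans b3 (mul_le_mul_of_nonneg_right hm1 (by positivity))
  have fuv : |UV| ≤ m * (l * q ^ 2) :=
    le_trans b4 (mul_le_mul_of_nonneg_right hm1 (by positivity))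
  have fuu : |UU| ≤ 26 / 1000 + m * l :=
    le_trans b5 (add_le_add le_rfl (mul_le_mul_of_nonneg_right hm1 hl0.le))
  have fvv : |VV| ≤ 26 / 1000 + m * l :=
    le_trans b6 (add_le_add le_rfl (mul_le_mul_of_nonneg_right hm1 hl0.le))
  have fp : |U + V| ≤ 2 * m * (l * q ^ 3) :=
    le_trans (abs_add_le _ _) (by linarith)
  have fm : |U - V| ≤ 2 * m * (l * q ^ 3) :=
    le_trans (abs_sub _ _) (by linarith)
  -- products
  have hlq : l * q ≤ l := mul_le_of_le_one_right hl0.le hq1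
  have hmlq : 0 ≤ m ^ 2 * (l * q) := by positivity
  have lq1 : l * q ≤ 1 := le_trans hlq hl1
  have A1 : |css * F| ≤ 1300 ^ 4 * (m ^ 2 * (l * q)) := by
    refine le_trans (abs_mul_le' k5' f0') ?_
    have : m * k ^ 4 * (m * (l ^ 2 * q ^ 5)) = (k * q) ^ 4 * (m ^ 2 * (l * q)) * l := by ring
    rw [this]
    refine le_trans (mul_le_of_le_one_right (by positivity) hl1) ?_
    exact mul_le_mul_of_nonneg_right p4 hmlq
  have A2 : |cts * F| ≤ 1300 ^ 3 * (m ^ 2 * (l * q)) := by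
    refine le_trans (abs_mul_le' k4' f0') ?_
    have : m * k ^ 3 * (m * (l ^ 2 * q ^ 5)) = (k * q) ^ 3 * (m ^ 2 * (l * q)) * (l * q) := by ring
    rw [this]
    refine le_trans (mul_le_of_le_one_right (by positivity) lq1) ?_
    exact mul_le_mul_of_nonneg_right p3 hmlq
  have A3 : |ctt * F| ≤ 1300 ^ 2 * (m ^ 2 * (l * q)) := by
    refine le_trans (abs_mul_le' k3' f0') ?_
    have : m * k ^ 2 * (m * (l ^ 2 * q ^ 5)) = (k * q) ^ 2 * (m ^ 2 * (l * q)) * (l * q * q) := by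
      ring
    rw [this]
    refine le_trans (mul_le_of_le_one_right (by positivity) ?_) ?_
    · exact le_trans (mul_le_of_le_one_right (by positivity) hq1) lq1
    · exact mul_le_mul_of_nonneg_right p2 hmlq
  have A4 : |cs * F| ≤ 1300 ^ 2 * (m ^ 2 * (l * q)) := by
    refine le_trans (abs_mul_le' k2' f0') ?_
    have : m * k ^ 2 * (m * (l ^ 2 * q ^ 5)) = (k * q) ^ 2 * (m ^ 2 * (l * q)) * (l * q * q) := by
      ring
    rw [this]
    refine le_trans (mul_le_of_le_one_right (by positivity) ?_) ?_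
    · exact le_trans (mul_le_of_le_one_right (by positivity) hq1) lq1
    · exact mul_le_mul_of_nonneg_right p2 hmlq
  have A5 : |cs * (U - V)| ≤ 2 * 1300 ^ 2 * (m ^ 2 * (l * q)) := by
    refine le_trans (abs_mul_le' k2' fm) ?_
    have : m * k ^ 2 * (2 * m * (l * q ^ 3)) = 2 * ((k * q) ^ 2 * (m ^ 2 * (l * q))) := by ring
    rw [this]
    have := mul_le_mul_of_nonneg_right p2 hmlq
    linarith
  have A6 : |cs * (U + V)| ≤ 2 * 1300 ^ 2 * (m ^ 2 * (l * q)) := by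
    refine le_trans (abs_mul_le' k2' fp) ?_
    have : m * k ^ 2 * (2 * m * (l * q ^ 3)) = 2 * ((k * q) ^ 2 * (m ^ 2 * (l * q))) := by ring
    rw [this]
    have := mul_le_mul_of_nonneg_right p2 hmlq
    linarith
  have A7 : |ct * (U + V)| ≤ 2 * 1300 * (m ^ 2 * (l * q)) := by
    refine le_trans (abs_mul_le' k1' fp) ?_
    have : m * k * (2 * m * (l * q ^ 3)) = 2 * ((k * q) * (m ^ 2 * (l * q))) * q := by ring
    rw [this]
    refine le_trans (mul_le_of_le_one_right (by positivity) hq1) ?_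
    have := mul_le_mul_of_nonneg_right hkq hmlq
    linarith
  have A8 : |ct * (U - V)| ≤ 2 * 1300 * (m ^ 2 * (l * q)) := by
    refine le_trans (abs_mul_le' k1' fm) ?_
    have : m * k * (2 * m * (l * q ^ 3)) = 2 * ((k * q) * (m ^ 2 * (l * q))) * q := by ring
    rw [this]
    refine le_trans (mul_le_of_le_one_right (by positivity) hq1) ?_
    have := mul_le_mul_of_nonneg_right hkq hmlq
    linarith
  have hmm : m ≤ m ^ 2 := by
    have := mul_le_mul_of_nonneg_left hm0 hm0'.le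
    rw [sq]; linarith
  have hmml : m * (l * q) ≤ m ^ 2 * (l * q) := mul_le_mul_of_nonneg_right hmm (by positivity)
  have A9 : |c * F| ≤ m ^ 2 * (l * q) := by
    refine le_trans (abs_mul_le' c0 f0') ?_
    have : 1 * (m * (l ^ 2 * q ^ 5)) = m * (l * q) * (l * q * q ^ 3) := by ring
    rw [this]
    refine le_trans (mul_le_of_le_one_right (by positivity) ?_) hmml
    exact le_trans (mul_le_of_le_one_right (by positivity) (pow_le_one₀ hq0.le hq1)) lq1
  have A10 : |c * (U - V)| ≤ 2 * (m ^ 2 * (l * q)) := by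
    refine le_trans (abs_mul_le' c0 fm) ?_
    have : 1 * (2 * m * (l * q ^ 3)) = 2 * (m * (l * q)) * q ^ 2 := by ring
    rw [this]
    refine le_trans (mul_le_of_le_one_right (by positivity) (pow_le_one₀ hq0.le hq1)) ?_
    linarith
  have A11 : |c * UV| ≤ m ^ 2 * (l * q) := by
    refine le_trans (abs_mul_le' c0 fuv) ?_
    have : 1 * (m * (l * q ^ 2)) = m * (l * q) * q := by ring
    rw [this]
    exact le_trans (mul_le_of_le_one_right (by positivity) hq1) hmml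
  have hml : m ^ 2 * (l * q) ≤ m ^ 2 * l := mul_le_mul_of_nonneg_left hlq (by positivity)
  have hml' : m * l ≤ m ^ 2 * l := mul_le_mul_of_nonneg_right hmm hl0.le
  have A12 : |c * (UU + VV)| ≤ 52 / 1000 + 2 * (m ^ 2 * l) := by
    have : |UU + VV| ≤ 52 / 1000 + 2 * (m * l) := le_trans (abs_add_le _ _) (by linarith)
    refine le_trans (abs_mul_le' c0 this) (by linarith)
  have A13 : |c * (UU - VV)| ≤ 52 / 1000 + 2 * (m ^ 2 * l) := by
    have : |UU - VV| ≤ 52 / 1000 + 2 * (m * l) := le_trans (abs_sub _ _) (by linarith)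
    refine le_trans (abs_mul_le' c0 this) (by linarith)
  have hpos : 0 ≤ m ^ 2 * l := by positivity
  rw [abs_le] at A1 A2 A3 A4 A5 A6 A7 A8 A9 A10 A11 A12 A13
  refine ⟨?_, ?_, ?_, ?_, ?_, ?_⟩
  · rw [abs_le]; constructor <;> linarith [A9.1, A9.2]
  · rw [abs_le]; constructor <;> linarith [A4.1, A4.2, A10.1, A10.2]
  · have : ctt * F + 2 * (ct * (U + V)) + c * (UU + 2 * UV + VV) =
        ctt * F + 2 * (ct * (U + V)) + c * (UU + VV) + 2 * (c * UV) := by ring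
    rw [this, abs_le]; constructor <;> linarith [A3.1, A3.2, A7.1, A7.2, A12.1, A12.2, A11.1, A11.2]
  · have : cts * F + cs * (U + V) + ct * (U - V) + c * (UU - VV) =
        cts * F + cs * (U + V) + ct * (U - V) + c * (UU - VV) := rfl
    rw [abs_le]; constructor <;> linarith [A2.1, A2.2, A6.1, A6.2, A8.1, A8.2, A13.1, A13.2]
  · have : css * F + 2 * (cs * (U - V)) + c * (UU - 2 * UV + VV) =
        css * F + 2 * (cs * (U - V)) + c * (UU + VV) - 2 * (c * UV) := by ring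
    rw [this, abs_le]; constructor <;> linarith [A1.1, A1.2, A5.1, A5.2, A12.1, A12.2, A11.1, A11.2]
  · have : css * F + 2 * (cs * (U - V)) + c * (UU - 2 * UV + VV) -
        (ctt * F + 2 * (ct * (U + V)) + c * (UU + 2 * UV + VV)) - c * F =
        css * F + 2 * (cs * (U - V)) - ctt * F - 2 * (ct * (U + V)) - 4 * (c * UV) - c * F := by
      ring
    have e : 10 ^ 14 * m ^ 2 * l * q = 10 ^ 14 * (m ^ 2 * (l * q)) := by ring
    rw [this, e, abs_le]
    constructor <;> linarith [A1.1, A1.2, A5.1, A5.2, A3.1, A3.2, A7.1, A7.2, A11.1, A11.2,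
      A9.1, A9.2]

end Pool.Agent.TH168.Mil
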