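import Pool.Agent.TH168.Mil.Asm3

set_option autoImplicit false

namespace Pool.Agent.TH168.Mil

open Set Filter Topology MeasureTheory
open scoped ContDiff

/-- conclusion at a point -/
def Good (f : ℝ → ℝ → ℝ) (θ y : ℝ) : Prop :=
  ∃ v t s tt ts ss : ℝ, HasJet f θ y v t s tt ts ss ∧
    (ss - tt - v ≠ 0 ∨ ts ≠ 0) ∧
    1 / 2 ≤ Real.cosh y * (tt + v) - Real.sinh y * s ∧
    Real.cosh y * (tt + v) - Real.sinh y * s ≤ 2 ∧
    1 / 2 ≤ Real.cosh y * ss - Real.sinh y * s ∧
    |Real.cosh y * ts| ≤ 1 / 4 ∧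
    (y ≤ 1 → eta * Jc y - 3 ≤ -s)

theorem al_zero {y : ℝ} (hy : 1 / 1000 ≤ y) : al y = 0 := by
  have h0 : 0 < y := by linarith
  exact (cap h0 (phi_nonpos hy)).2.2.2.2.2.2.1

theorem s0_bound (θ : ℝ) {y : ℝ} (hy : 0 < y) (h1 : y ≤ 1) :
    eta * Jc y - 2 ≤ -s0 θ y := by
  have ha := a1_le' continuousOn_al (fun y hy => al_abs hy) (fun y hy => al_zero hy)
    (fun y hy => al_lower hy) hy
  obtain ⟨b3, b4⟩ := C1_bound hy
  have hc := Real.abs_cos_le_one (2 * θ)
  have hs := Real.abs_sin_le_one (2 * θ)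
  have m1 := abs_mul_le' b3 hc
  have m2 := abs_mul_le' b4 hs
  have hsinh : Real.sinh y ≤ 3 / 2 := by
    have h2 : Real.sinh y ≤ Real.sinh 1 := Real.sinh_le_sinh.mpr h1
    have h3 : Real.sinh 1 ≤ 3 / 2 := by
      rw [Real.sinh_eq]
      have := Real.exp_one_lt_d9
      have h4 : 0 < Real.exp (-1) := Real.exp_pos _
      linarith
    linarith
  unfold s0
  rw [abs_le] at m1 m2
  have : eta = 1 / 10 ^ 6 := rfl
  rw [this]
  have h5 : 1 / 10 ^ 6 * (a1 y + C1 y * Real.cos (2 * θ) + D1 y * Real.sin (2 * θ)) ≤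
      1 / 10 ^ 6 * (1 - Jc y + 20) := by
    refine mul_le_mul_of_nonneg_left ?_ (by norm_num)
    linarith [m1.2, m2.2]
  linarith

/-- zone where the function is the background -/
theorem good_bg {f : ℝ → ℝ → ℝ} {θ y : ℝ} (hy : 0 < y)
    (hf : ∀ᶠ p : ℝ × ℝ in 𝓝 (θ, y), f0 p.1 p.2 = f p.1 p.2)
    (hT : T10 θ y ≠ 0 ∨ T20 θ y ≠ 0) : Good f θ y := by
  obtain ⟨r1, r2, r3⟩ := bg_R θ hy
  have heta : (0:ℝ) < eta := by unfold eta; norm_num
  refine ⟨_, _, _, _, _, _, (jet0 θ hy).congr hf, ?_, ?_, ?_, ?_, ?_, ?_⟩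
  · rcases hT with hT | hT
    · left; rw [T1_id]; exact mul_ne_zero heta.ne' hT
    · right
      intro h
      have := T2_id θ y
      rw [h] at this
      have h2 : eta * T20 θ y ≠ 0 := mul_ne_zero heta.ne' hT
      apply h2; linarith
  · rw [abs_le] at r1; linarith [r1.1]
  · rw [abs_le] at r1; linarith [r1.2]
  · linarith
  · linarith
  · intro h1
    have := s0_bound θ hy h1
    linarith

/-- facts on `al`, `be` in the pattern zone -/
theorem al_be {y : ℝ} (hy : 0 < y) (h : 2 / 5 ≤ phi y) (hk : 1000 ≤ coth y) :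
    0 ≤ al y ∧ al y ≤ 3 * coth y ∧ 39 / 10 ≤ be y ∧ be y ≤ 41 / 10 := by
  obtain ⟨b1, b2⟩ := Cc_bound hy
  have h3 : 3 / 10 ≤ phi y := by linarith
  rw [al_eq h3, be_eq h3]
  obtain ⟨t0, t1⟩ := tau_mem (phi y)
  have q1 := abs_mul_le' b1 (Real.abs_cos_le_one (phi y))
  have q2 := abs_mul_le' b2 (Real.abs_sin_le_one (phi y))
  have q3 := abs_mul_le' b1 (Real.abs_sin_le_one (phi y))
  have q4 := abs_mul_le' b2 (Real.abs_cos_le_one (phi y))
  rw [abs_le] at q1 q2 q3 q4
  have h5 : 0 ≤ tau (phi y) * coth y := by positivity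
  have h6 : tau (phi y) * coth y ≤ coth y := mul_le_of_le_one_left (by linarith) t1
  refine ⟨?_, ?_, ?_, ?_⟩
  · linarith [q1.1, q1.2, q2.1, q2.2]
  · linarith [q1.1, q1.2, q2.1, q2.2]
  · linarith [q3.1, q3.2, q4.1, q4.2]
  · linarith [q3.1, q3.2, q4.1, q4.2]

theorem D1_eq_phi (θ y : ℝ) : T20 θ y = 4 * ((Real.exp (-y) + Gs (phi y) - Is y) *
    Real.cos (2 * θ) - (Gc (phi y) - Ic y) * Real.sin (2 * θ)) := by
  unfold T20 D1 C1; ring

theorem exp_neg_lower {y : ℝ} (hy : 0 < y) (h : y ≤ 1 / 1000) : 99 / 100 ≤ Real.exp (-y) := by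
  have := Real.add_one_le_exp (-y)
  linarith

theorem N_lower {θ y : ℝ} (hy : 0 < y) : -13 ≤ T20 θ y := by
  rw [D1_eq_phi]
  obtain ⟨h1, h2⟩ := I_bound hy
  obtain ⟨e1, e2, _⟩ := exp_facts hy
  exact N_lower' e1.le e2 h1 h2

theorem N_ramp {θ y : ℝ} (hy : 0 < y) (h : 0 ≤ phi y) (h2 : phi y ≤ 6 / 5)
    (hmu : |θ - phi y / 2| ≤ 1 / 4000) : 1 ≤ T20 θ y := by
  rw [D1_eq_phi]
  obtain ⟨h1, h3⟩ := I_bound hy
  obtain ⟨e1, e2, _⟩ := exp_facts hy
  refine N_ramp' h h2 (exp_neg_lower hy (y_small hy h)) e2 h1 h3 ?_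
  rw [abs_le] at hmu ⊢
  constructor <;> linarith [hmu.1, hmu.2]

theorem coth_big {y : ℝ} (hy : 0 < y) (h : 0 ≤ phi y) : 1000 ≤ coth y := by
  have h1 : Real.exp (phi y / 2) = 1 / (1000 * Real.sinh y) := exp_phi hy
  have h2 : 1 ≤ Real.exp (phi y / 2) := Real.one_le_exp (by linarith)
  have h3 : 0 < Real.sinh y := Real.sinh_pos_iff.mpr hy
  rw [h1, le_div_iff₀ (by positivity)] at h2
  unfold coth
  rw [le_div_iff₀ h3]
  have := Real.one_le_cosh y
  linarith

theorem near_wall {θ y : ℝ} (hy : 0 < y) (h : 2 / 5 ≤ phi y)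
    (hmu : |4 * (θ - phi y / 2) * coth y| ≤ 1) : 5 * |θ - phi y / 2| ≤ |T10 θ y| := by
  have h3 : 3 / 10 ≤ phi y := by linarith
  obtain ⟨b1, b2⟩ := Cc_bound hy
  rw [T10_eq (sg_one h3), al_eq h3, be_eq h3]
  obtain ⟨t0, t1⟩ := tau_mem (phi y)
  exact near_wall' t0 t1 (coth_big hy (by linarith)) b1 b2 hmu

theorem far_wall {θ y : ℝ} (hy : 0 < y) (h : 2 / 5 ≤ phi y)
    (hmu : |θ - phi y / 2| ≤ Real.pi / 2) (hne : θ ≠ phi y / 2) (h1 : T10 θ y = 0) :
    T20 θ y < 0 := by
  have h3 : 3 / 10 ≤ phi y := by linarith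
  obtain ⟨b1, b2⟩ := Cc_bound hy
  obtain ⟨i1, i2⟩ := I_bound hy
  obtain ⟨e1, e2, _⟩ := exp_facts hy
  have hne' : θ - phi y / 2 ≠ 0 := sub_ne_zero.mpr hne
  rw [T10_eq (sg_one h3), al_eq h3, be_eq h3] at h1
  have hsin : Real.sin (θ - phi y / 2) ≠ 0 := by
    rw [abs_le] at hmu
    have hpi := Real.pi_pos
    rw [Ne, Real.sin_eq_zero_iff_of_lt_of_lt (by linarith [hmu.1]) (by linarith [hmu.2])]
    exact hne'
  have h4 : (3 + 2 * tau (phi y) * coth y - 3 * (Cc y * Real.cos (phi y) + Dt y * Real.sin (phi y)))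
      * Real.sin (θ - phi y / 2) =
      (4 + 3 * (Cc y * Real.sin (phi y) - Dt y * Real.cos (phi y))) *
        Real.cos (θ - phi y / 2) := by
    rcases mul_eq_zero.mp h1 with h5 | h5
    · exfalso; apply hsin; linarith
    · linarith
  have h6 := far_wall' h (coth_big hy (by linarith)) b1 b2
    (exp_neg_lower hy (y_small hy (by linarith))) e2 i1 i2 hmu hne' h4
  have h7 : phi y + 2 * (θ - phi y / 2) = 2 * θ := by ring
  rw [h7] at h6
  rw [D1_eq_phi]
  linarith

theorem nat_zone {θ y : ℝ} (hy : 0 < y) (h : phi y ≤ 1 / 2) (h1 : T10 θ y = 0) :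
    T20 θ y ≠ 0 := by
  rcases le_or_gt (phi y) 0 with h0 | h0
  · obtain ⟨g1, g2, g3, g4, g5, g6, g7, g8, g9⟩ := cap hy h0
    unfold T10 at h1
    unfold T20
    rw [g5, g6, g7] at h1
    rw [g1, g2]
    have he := Real.exp_pos (-y)
    have hs : Real.sin (2 * θ) = 0 := by
      have h2 : Real.exp (-y) * Real.sin (2 * θ) = 0 := by linarith
      rcases mul_eq_zero.mp h2 with h3 | h3
      · exact absurd h3 he.ne'
      · exact h3
    intro h3
    have hc : Real.cos (2 * θ) = 0 := by
      have h2 : Real.exp (-y) * Real.cos (2 * θ) = 0 := by linarith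
      rcases mul_eq_zero.mp h2 with h3 | h3
      · exact absurd h3 he.ne'
      · exact h3
    have := Real.sin_sq_add_cos_sq (2 * θ)
    rw [hs, hc] at this
    norm_num at this
  · obtain ⟨b1, b2⟩ := Cc_bound hy
    obtain ⟨i1, i2⟩ := I_bound hy
    obtain ⟨e1, e2, _⟩ := exp_facts hy
    obtain ⟨s0, s1⟩ := sg_mem y
    obtain ⟨gc, gs⟩ := G_zero (t := phi y) (by linarith)
    have htau : tau (phi y) = 0 := tau_zero (by linarith)
    have hC1 : |C1 y| ≤ 1 / 100 := by unfold C1; rw [gc, zero_sub, abs_neg]; exact i1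
    have hD1 : |D1 y - Real.exp (-y)| ≤ 1 / 50 := by
      unfold D1; rw [gs]
      have : Real.exp (-y) + 0 - Is y - Real.exp (-y) = -Is y := by ring
      rw [this, abs_neg]; exact i2
    have h5 := nat_zone' (s := sg y) (p := phi y) (e := Real.exp (-y)) (C := Cc y) (D := Dt y)
      (c1 := C1 y) (d1 := D1 y) (Bc' := Bc y) (Bs' := Bs y) (al' := al y) (θ := θ) s0 s1 h0.le h
      (by
        intro hs
        by_contra hcon
        rw [not_le] at hcon
        have := sg_one hcon.le
        linarith)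
      (exp_neg_lower hy (y_small hy h0.le)) e2 b1 b2 hC1 hD1
      (by unfold Bc ic; rw [htau]; ring) (by unfold Bs js; rw [htau]; ring)
      (by unfold al; ring) h1
    unfold T20
    exact mul_ne_zero (by norm_num) h5

theorem phi_cont {y : ℝ} (hy : 0 < y) : ContinuousAt phi y := (hasDerivAt_phi hy).continuousAt

theorem coth_cont {y : ℝ} (hy : 0 < y) : ContinuousAt coth y := (hasDerivAt_coth hy).continuousAt

theorem tfun_cont (θ : ℝ) {y : ℝ} (hy : 0 < y) :
    ContinuousAt (fun p : ℝ × ℝ => |4 * (p.1 - phi p.2 / 2) * coth p.2|) (θ, y) := by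
  have h1 : ContinuousAt (fun p : ℝ × ℝ => phi p.2) (θ, y) :=
    ContinuousAt.comp (f := fun p : ℝ × ℝ => p.2) (g := phi) (x := (θ, y)) (phi_cont hy)
      continuousAt_snd
  have h2 : ContinuousAt (fun p : ℝ × ℝ => coth p.2) (θ, y) :=
    ContinuousAt.comp (f := fun p : ℝ × ℝ => p.2) (g := coth) (x := (θ, y)) (coth_cont hy)
      continuousAt_snd
  exact ((continuousAt_const.mul (continuousAt_fst.sub (h1.div_const 2))).mul h2).abs

set_option maxHeartbeats 1000000 in
theorem core : ∃ L : ℝ, 1 ≤ L ∧ ∀ θ y : ℝ, 0 < y → |θ - phi y / 2| ≤ Real.pi / 2 →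
    Good (ff L) θ y := by
  obtain ⟨M, hM, hpat⟩ := pattern_bounds
  obtain ⟨C, hC, hchi⟩ := chiF_jet
  obtain ⟨Λ, hΛ, hZ⟩ := zoneC_core M hM
  obtain ⟨L, hL1, hLΛ, hLC, hLC2⟩ : ∃ L : ℝ, 1 ≤ L ∧ Λ ≤ L ∧ 1000 * C ≤ L ∧
      10 ^ 11 * C ≤ L :=
    ⟨max (max 1 Λ) (10 ^ 11 * C), le_trans (le_max_left _ _) (le_max_left _ _),
      le_trans (le_max_right _ _) (le_max_left _ _),
      le_trans (by nlinarith) (le_max_right _ _), le_max_right _ _⟩
  have hL0 : 0 < L := by linarith
  have heta : (0:ℝ) < eta := by unfold eta; norm_num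
  have heta' : eta = 1 / 10 ^ 6 := rfl
  refine ⟨L, hL1, ?_⟩
  intro θ y hy hmu
  rcases lt_or_ge (phi y) (2 / 5) with h | h
  · -- inactive zone
    refine good_bg hy ?_ ?_
    · have h1 : ContinuousAt (fun p : ℝ × ℝ => phi p.2) (θ, y) :=
        ContinuousAt.comp (f := fun p : ℝ × ℝ => p.2) (g := phi) (x := (θ, y)) (phi_cont hy)
          continuousAt_snd
      have h2 : ∀ᶠ p : ℝ × ℝ in 𝓝 (θ, y), phi p.2 < 2 / 5 := h1.eventually (gt_mem_nhds h)
      have h3 : ∀ᶠ p : ℝ × ℝ in 𝓝 (θ, y), 0 < p.2 :=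
        (continuousAt_snd : ContinuousAt Prod.snd (θ, y)).eventually (lt_mem_nhds hy)
      filter_upwards [h2, h3] with p hp hp0
      unfold ff
      rw [pattern_inactive hp0 hp.le, add_zero]
    · by_contra hcon
      rw [not_or, not_not, not_not] at hcon
      exact nat_zone hy (by linarith) hcon.1 hcon.2
  · have hk := coth_big hy (by linarith : 0 ≤ phi y)
    rcases lt_or_ge 1 |4 * (θ - phi y / 2) * coth y| with h1 | h1
    · -- outside the strip
      refine good_bg hy ?_ ?_
      · have h2 := (tfun_cont θ hy).eventually (lt_mem_nhds h1)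
        filter_upwards [h2] with p hp
        unfold ff
        rw [chi_zero hp.le, zero_mul, add_zero]
      · by_contra hcon
        rw [not_or, not_not, not_not] at hcon
        have hne : θ ≠ phi y / 2 := by
          intro he
          rw [he] at h1
          simp at h1
          linarith
        have := far_wall hy h hmu hne hcon.1
        linarith [hcon.2]
    · -- strip
      obtain ⟨z1, z2, z3, z4, z5, z6, z7, z8, z9⟩ := zone_facts hy h h1
      obtain ⟨v, t, s, tt, ts, ss, hj, j1, j2, j3, j4, j5, j6⟩ := hchi L hL1 θ y hy h h1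
      have hsum := (jet0 θ hy).add hj
      have hff : HasJet (ff L) θ y (f0 θ y + v) (t0 θ y + t) (s0 θ y + s) (tt0 θ y + tt)
          (ts0 θ y + ts) (ss0 θ y + ss) := hsum
      obtain ⟨r1, r2, r3⟩ := bg_R θ hy
      have hCL : C / L ≤ 1 / 1000 := by
        rw [div_le_div_iff₀ hL0 (by norm_num)]; linarith
      have hc2 := cosh_le_two hy z1
      have hs2 := sinh_le hy z1
      obtain ⟨he0, he1, he2, he3, hsp, hcp⟩ := exp_facts hy
      have hch : |Real.cosh y| ≤ 2 := by rw [abs_of_pos (by linarith)]; exact hc2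
      have hsh : |Real.sinh y| ≤ 1 := by rw [abs_of_pos hsp]; linarith
      have j1' : |v| ≤ 1 / 1000 := le_trans j1 hCL
      have j2' : |s| ≤ 1 / 1000 := le_trans j2 hCL
      have j3' : |tt| ≤ 61 / 1000 := by linarith
      have j4' : |ts| ≤ 61 / 1000 := by linarith
      have j5' : |ss| ≤ 61 / 1000 := by linarith
      have e1 := abs_mul_le' hch j1'
      have e2 := abs_mul_le' hsh j2'
      have e3 := abs_mul_le' hch j3'
      have e4 := abs_mul_le' hch j4'
      have e5 := abs_mul_le' hch j5'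
      refine ⟨_, _, _, _, _, _, hff, ?_, ?_, ?_, ?_, ?_, ?_⟩
      · -- nonvanishing
        rcases lt_or_ge |4 * (θ - phi y / 2) * coth y| (1 / 2) with h2 | h2
        · -- zone C
          have hjF : HasJet (ff L) θ y (f0 θ y + FF L θ y) (t0 θ y + (Fu L θ y + Fv L θ y))
              (s0 θ y + (Fu L θ y - Fv L θ y))
              (tt0 θ y + (Fuu L θ y + 2 * Fuv L θ y + Fvv L θ y))
              (ts0 θ y + (Fuu L θ y - Fvv L θ y))
              (ss0 θ y + (Fuu L θ y - 2 * Fuv L θ y + Fvv L θ y)) := by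
            refine ((jet0 θ hy).add (jetF hL1 θ y)).congr ?_
            have h3 := (tfun_cont θ hy).eventually (gt_mem_nhds h2)
            filter_upwards [h3] with p hp
            unfold ff
            rw [chi_one hp.le, one_mul]
          obtain ⟨u1, u2, u3, u4, u5, u6⟩ := hff.unique hjF
          rw [u1, u4, u5, u6]
          by_contra hcon
          rw [not_or, not_not, not_not] at hcon
          obtain ⟨hc1, hc2'⟩ := hcon
          obtain ⟨ab1, ab2, ab3, ab4⟩ := al_be hy h hk
          have hzx : Real.exp (θ - y) ≤ Real.exp (θ + y) := Real.exp_le_exp.mpr (by linarith)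
          obtain ⟨p1, p2, p3, p4, p5, p6⟩ := hpat L hL1 θ y z5 z6 z7 hzx
          have hx1 : 1 ≤ Real.exp (θ + y) := Real.one_le_exp z6
          have hmu1 : al y * |θ - phi y / 2| ≤ 1 := by
            have h4 : |4 * (θ - phi y / 2) * coth y| = 4 * |θ - phi y / 2| * coth y := by
              rw [abs_mul, abs_mul, abs_of_pos (by norm_num : (0:ℝ) < 4),
                abs_of_pos (by linarith : 0 < coth y)]
            rw [h4] at h1
            have h5 := mul_le_mul_of_nonneg_right ab2 (abs_nonneg (θ - phi y / 2))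
            linarith
          have hkey := hZ L hLΛ (Real.exp (θ + y)) (Real.exp (θ - y) + 1 / 500)
            (θ - phi y / 2) (al y) (be y) (T20 θ y) (FF L θ y) (Fuv L θ y) (Fuu L θ y)
            (Fvv L θ y) hx1 (by have := Real.one_le_exp z5; linarith) z8 z4 ab1
            (by linarith) hmu1 ab3 ab4 (N_lower hy) (N_abs' hy)
            (fun hr => N_ramp hy (by linarith) (z9 hr) z4) p1 p4 p5 p6
            (by
              have h3 : 3 / 10 ≤ phi y := by linarith
              have h4 := T1_id θ y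
              rw [T10_eq (sg_one h3)] at h4
              rw [← h4]
              linarith)
          have h5 := T2_id θ y
          rw [← h5] at hkey
          linarith
        · -- zone B
          left
          have h3 := T1_id θ y
          have h4 := near_wall hy h h1
          have hx1 : 1 ≤ Real.exp (θ + y) := Real.one_le_exp z6
          have h5 : 1 / (20800 * Real.exp (θ + y)) ≤ |θ - phi y / 2| := by
            have h6 : |4 * (θ - phi y / 2) * coth y| = 4 * |θ - phi y / 2| * coth y := by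
              rw [abs_mul, abs_mul, abs_of_pos (by norm_num : (0:ℝ) < 4),
                abs_of_pos (by linarith : 0 < coth y)]
            rw [h6] at h2
            rw [div_le_iff₀ (by positivity)]
            have h7 := mul_le_mul_of_nonneg_left z3 (abs_nonneg (θ - phi y / 2))
            nlinarith
          intro hz
          have h6 : eta * T10 θ y = -(ss - tt - v) := by rw [← h3]; linarith
          have h7 : |eta * T10 θ y| ≤ C / L * (1 / Real.exp (θ + y)) := by
            rw [h6, abs_neg]; exact j6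
          rw [abs_mul, abs_of_pos heta] at h7
          have h8 : eta * (5 * (1 / (20800 * Real.exp (θ + y)))) ≤ eta * |T10 θ y| :=
            mul_le_mul_of_nonneg_left (le_trans (by linarith) h4) heta.le
          have h9 : C / L ≤ 1 / 10 ^ 11 := by
            rw [div_le_div_iff₀ hL0 (by norm_num)]; linarith
          have h10 : C / L * (1 / Real.exp (θ + y)) ≤ 1 / 10 ^ 11 * (1 / Real.exp (θ + y)) :=
            mul_le_mul_of_nonneg_right h9 (by positivity)
          have h11 : eta * (5 * (1 / (20800 * Real.exp (θ + y)))) =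
              1 / (4160 * 10 ^ 6) * (1 / Real.exp (θ + y)) := by
            rw [heta']; field_simp; norm_num
          have h12 : 0 < 1 / Real.exp (θ + y) := by positivity
          rw [h11] at h8
          have h13 : 1 / 10 ^ 11 * (1 / Real.exp (θ + y)) <
              1 / (4160 * 10 ^ 6) * (1 / Real.exp (θ + y)) :=
            mul_lt_mul_of_pos_right (by norm_num) h12
          linarith
      · have : Real.cosh y * (tt0 θ y + tt + (f0 θ y + v)) - Real.sinh y * (s0 θ y + s) =
          (Real.cosh y * (tt0 θ y + f0 θ y) - Real.sinh y * s0 θ y) + Real.cosh y * tt +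
            Real.cosh y * v - Real.sinh y * s := by ring
        rw [this]
        rw [abs_le] at r1 e1 e2 e3
        linarith [r1.1, e1.1, e2.2, e3.1]
      · have : Real.cosh y * (tt0 θ y + tt + (f0 θ y + v)) - Real.sinh y * (s0 θ y + s) =
          (Real.cosh y * (tt0 θ y + f0 θ y) - Real.sinh y * s0 θ y) + Real.cosh y * tt +
            Real.cosh y * v - Real.sinh y * s := by ring
        rw [this]
        rw [abs_le] at r1 e1 e2 e3
        linarith [r1.2, e1.2, e2.1, e3.2]
      · have : Real.cosh y * (ss0 θ y + ss) - Real.sinh y * (s0 θ y + s) =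
          (Real.cosh y * ss0 θ y - Real.sinh y * s0 θ y) + Real.cosh y * ss -
            Real.sinh y * s := by ring
        rw [this]
        rw [abs_le] at e2 e5
        linarith [e2.2, e5.1]
      · have : Real.cosh y * (ts0 θ y + ts) = Real.cosh y * ts0 θ y + Real.cosh y * ts := by ring
        rw [this]
        refine le_trans (abs_add_le _ _) ?_
        linarith
      · intro hy1
        have := s0_bound θ hy hy1
        rw [abs_le] at j2'
        linarith [j2'.2]

end Pool.Agent.TH168.Mil
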