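import Pool.Agent.TH168.Mil.Asm4

set_option autoImplicit false

namespace Pool.Agent.TH168.Mil

open Set Filter Topology MeasureTheory
open scoped ContDiff RealInnerProductSpace

theorem HasJet.shift {f : ℝ → ℝ → ℝ} {θ y c v t s tt ts ss : ℝ}
    (h : HasJet f (θ - c) y v t s tt ts ss) :
    HasJet (fun a b => f (a - c) b) θ y v t s tt ts ss := by
  obtain ⟨ft, fs, h1, h2, h3, h4, h5, h6, h7⟩ := h
  refine ⟨fun a b => ft (a - c) b, fun a b => fs (a - c) b, ?_, h2, h3, h4, ?_, ?_, h7⟩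
  · have hc : ContinuousAt (fun p : ℝ × ℝ => (p.1 - c, p.2)) (θ, y) := by fun_prop
    have h8 : ∀ᶠ p : ℝ × ℝ in 𝓝 (θ, y),
        HasDerivAt (fun a => f a (p.1 - c, p.2).2) (ft (p.1 - c, p.2).1 (p.1 - c, p.2).2)
          (p.1 - c, p.2).1 ∧
        HasDerivAt (fun b => f (p.1 - c, p.2).1 b) (fs (p.1 - c, p.2).1 (p.1 - c, p.2).2)
          (p.1 - c, p.2).2 := hc.eventually h1
    filter_upwards [h8] with p hp
    refine ⟨?_, hp.2⟩
    exact hp.1.comp_sub_const p.1 c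
  · exact h5.comp_sub_const θ c
  · exact h6.comp_sub_const θ c

/-- data at the points different from the origin -/
theorem point_data {L : ℝ} (_hL : 1 ≤ L)
    (hcore : ∀ θ y : ℝ, 0 < y → |θ - phi y / 2| ≤ Real.pi / 2 → Good (ff L) θ y)
    (hG : ContDiff ℝ ∞ (GG L)) (θ : ℝ) {y : ℝ} (hy : 0 < y) :
    ∃ a b d : ℝ, 1 / 2 ≤ a ∧ 1 / 2 ≤ d ∧ d ≤ 2 ∧ |b| ≤ 1 / 4 ∧ (a ≠ d ∨ b ≠ 0) ∧
      hess (GG L) (pt θ y) (Real.cos θ, Real.sin θ) (Real.cos θ, Real.sin θ) =
        (Real.sinh y / Real.cosh y) ^ 3 * a ∧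
      hess (GG L) (pt θ y) (Real.cos θ, Real.sin θ) (-Real.sin θ, Real.cos θ) =
        -(Real.sinh y / Real.cosh y) ^ 2 * b ∧
      hess (GG L) (pt θ y) (-Real.sin θ, Real.cos θ) (-Real.sin θ, Real.cos θ) =
        Real.sinh y / Real.cosh y * d ∧
      (y ≤ 1 → eta * Jc y - 3 ≤ Real.cosh y *
        (fderiv ℝ (GG L) (pt θ y) (pt θ y) - GG L (pt θ y))) := by
  obtain ⟨k, hk⟩ : ∃ k : ℤ, |θ - k * Real.pi - phi y / 2| ≤ Real.pi / 2 := by
    refine ⟨round ((θ - phi y / 2) / Real.pi), ?_⟩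
    have h1 := abs_sub_round ((θ - phi y / 2) / Real.pi)
    have hpi := Real.pi_pos
    have h2 : θ - round ((θ - phi y / 2) / Real.pi) * Real.pi - phi y / 2 =
        ((θ - phi y / 2) / Real.pi - round ((θ - phi y / 2) / Real.pi)) * Real.pi := by
      field_simp
      ring
    rw [h2, abs_mul, abs_of_pos hpi]
    have := mul_le_mul_of_nonneg_right h1 hpi.le
    linarith
  have hin : ∀ θ y : ℝ, 0 < y → phi y ≤ 2 / 5 → chi θ y * FF L θ y = 0 :=
    fun θ y h1 h2 => pattern_inactive h1 h2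
  have hchi : ∀ θ y : ℝ, 1 ≤ |4 * (θ - phi y / 2) * coth y| → chi θ y = 0 :=
    fun θ y h => chi_zero h
  have hcap : ∀ y : ℝ, 0 < y → phi y ≤ 0 → Cc y = 0 ∧ Dt y = 0 ∧ a0 y = 0 := by
    intro y h1 h2
    obtain ⟨g1, g2, g3, g4, g5, g6, g7, g8, g9⟩ := cap h1 h2
    exact ⟨g3, g4, g8⟩
  have heq := fG_GG (L := L) hy k hk hin hchi hcap
  obtain ⟨v, t, s, tt, ts, ss, hj, g1, g2, g3, g4, g5, g6⟩ := hcore (θ - k * Real.pi) y hy hk
  have hj2 : HasJet (fG (GG L)) θ y v t s tt ts ss := by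
    refine (HasJet.shift hj).congr ?_
    filter_upwards [heq] with p hp
    exact hp.symm
  obtain ⟨u1, u2, u3, u4, u5, u6⟩ := (hasJet_fG hG θ hy).unique hj2
  have hs : 0 < Real.sinh y := Real.sinh_pos_iff.mpr hy
  have hc : 0 < Real.cosh y := Real.cosh_pos y
  have hpt : fderiv ℝ (GG L) (pt θ y) (pt θ y) =
      1 / Real.sinh y * fderiv ℝ (GG L) (pt θ y) (Real.cos θ, Real.sin θ) := by
    have h1 : (pt θ y : ℝ × ℝ) = (1 / Real.sinh y) • (Real.cos θ, Real.sin θ) := by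
      unfold pt
      ext <;> simp <;> ring
    conv_lhs => rw [h1]
    rw [map_smul, smul_eq_mul]
    rw [← h1]
  rw [hpt]
  generalize fderiv ℝ (GG L) (pt θ y) (Real.cos θ, Real.sin θ) = g at *
  generalize hess (GG L) (pt θ y) (Real.cos θ, Real.sin θ) (Real.cos θ, Real.sin θ) = hrr at *
  generalize hess (GG L) (pt θ y) (Real.cos θ, Real.sin θ) (-Real.sin θ, Real.cos θ) = hrt at *
  generalize hess (GG L) (pt θ y) (-Real.sin θ, Real.cos θ) (-Real.sin θ, Real.cos θ) = htt at *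
  generalize GG L (pt θ y) = G at *
  generalize Real.sinh y = S at *
  generalize Real.cosh y = K at *
  refine ⟨K * ss - S * s, K * ts, K * (tt + v) - S * s, g4, g2, g3, g5, ?_, ?_, ?_, ?_, ?_⟩
  · rcases g1 with g1 | g1
    · left
      intro h
      apply g1
      have : K * (ss - tt - v) = 0 := by linarith
      rcases mul_eq_zero.mp this with h2 | h2
      · exact absurd h2 hc.ne'
      · exact h2
    · right
      exact mul_ne_zero hc.ne' g1
  · rw [← u3, ← u6]; field_simp; ring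
  · rw [← u5]; field_simp
  · rw [← u1, ← u3, ← u4]; field_simp; ring
  · intro h1
    have h2 := g6 h1
    rw [← u3] at h2
    have : K * (1 / S * g - G) = -(K * G - K / S * g) := by field_simp; ring
    rw [this]
    exact h2

theorem hess_expand {G : ℝ × ℝ → ℝ} (hG : ContDiff ℝ ∞ G) (P e f : ℝ × ℝ) (x z : ℝ) :
    hess G P (x • e + z • f) (x • e + z • f) =
      x ^ 2 * hess G P e e + 2 * x * z * hess G P e f + z ^ 2 * hess G P f f := by
  rw [hess_add_left hG, hess_smul_left hG, hess_smul_left hG, hess_symm hG P e, hess_symm hG P f,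
    hess_add_left hG, hess_smul_left hG, hess_smul_left hG, hess_add_left hG, hess_smul_left hG,
    hess_smul_left hG, hess_symm hG P f e]
  ring

theorem pos_form {A B D x z : ℝ} (hA : 0 < A) (hdet : 0 < A * D - B ^ 2) (h : x ≠ 0 ∨ z ≠ 0) :
    0 < x ^ 2 * A + 2 * x * z * B + z ^ 2 * D := by
  have key : A * (x ^ 2 * A + 2 * x * z * B + z ^ 2 * D) =
      (A * x + B * z) ^ 2 + (A * D - B ^ 2) * z ^ 2 := by ring
  have h2 : 0 < (A * x + B * z) ^ 2 + (A * D - B ^ 2) * z ^ 2 := by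
    rcases eq_or_ne z 0 with hz | hz
    · have hx : x ≠ 0 := by
        rcases h with h | h
        · exact h
        · exact absurd hz h
      rw [hz]
      have : 0 < (A * x) ^ 2 := by positivity
      nlinarith
    · have : 0 < (A * D - B ^ 2) * z ^ 2 := by positivity
      nlinarith [sq_nonneg (A * x + B * z)]
  rw [← key] at h2
  exact (mul_pos_iff_of_pos_left hA).mp h2

theorem GG_near_zero (L : ℝ) : ∀ᶠ P : ℝ × ℝ in 𝓝 (0 : ℝ × ℝ), GG L P = G0 P := by
  have h1 : ContinuousAt (fun P : ℝ × ℝ => P.1 ^ 2 + P.2 ^ 2) (0 : ℝ × ℝ) := by fun_prop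
  have h2 : ((0 : ℝ × ℝ).1 ^ 2 + (0 : ℝ × ℝ).2 ^ 2 : ℝ) < 1 := by simp
  filter_upwards [h1.eventually (gt_mem_nhds h2)] with P hP
  unfold GG
  rw [if_pos hP]

theorem hess_GG_zero (L : ℝ) : hess (GG L) 0 (1, 0) (1, 0) = 1 ∧
    hess (GG L) 0 (1, 0) (0, 1) = -eta ∧ hess (GG L) 0 (0, 1) (0, 1) = 1 := by
  have h : ∀ v w : ℝ × ℝ, hess (GG L) 0 v w = hess G0 0 v w := by
    intro v w
    unfold hess
    have h1 : ∀ᶠ Q : ℝ × ℝ in 𝓝 (0 : ℝ × ℝ), fderiv ℝ (GG L) Q v = fderiv ℝ G0 Q v := by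
      filter_upwards [(GG_near_zero L).eventually_nhds] with Q hQ
      rw [Filter.EventuallyEq.fderiv_eq hQ]
    rw [Filter.EventuallyEq.fderiv_eq h1]
  rw [h, h, h]
  exact hess_G0

theorem hess_pos {L : ℝ} (hL : 1 ≤ L)
    (hcore : ∀ θ y : ℝ, 0 < y → |θ - phi y / 2| ≤ Real.pi / 2 → Good (ff L) θ y)
    (hG : ContDiff ℝ ∞ (GG L)) (P v : ℝ × ℝ) (hv : v ≠ 0) : 0 < hess (GG L) P v v := by
  rcases eq_or_ne P 0 with rfl | hP
  · obtain ⟨h1, h2, h3⟩ := hess_GG_zero L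
    have hv2 : v = v.1 • ((1, 0) : ℝ × ℝ) + v.2 • ((0, 1) : ℝ × ℝ) := by
      ext <;> simp
    rw [hv2, hess_expand hG, h1, h2, h3]
    refine pos_form one_pos ?_ ?_
    · unfold eta; norm_num
    · by_contra hcon
      rw [not_or, not_not, not_not] at hcon
      exact hv (Prod.ext hcon.1 hcon.2)
  · obtain ⟨y, hy, θ, rfl⟩ := pt_surj hP
    obtain ⟨a, b, d, ha, hd, hd2, hb, hne, h1, h2, h3, -⟩ := point_data hL hcore hG θ hy
    have hv2 : v = (v.1 * Real.cos θ + v.2 * Real.sin θ) • ((Real.cos θ, Real.sin θ) : ℝ × ℝ) +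
        (-v.1 * Real.sin θ + v.2 * Real.cos θ) • ((-Real.sin θ, Real.cos θ) : ℝ × ℝ) := by
      have hsc := Real.sin_sq_add_cos_sq θ
      ext
      · simp
        linear_combination (-v.1) * hsc
      · simp
        linear_combination (-v.2) * hsc
    have hs : 0 < Real.sinh y := Real.sinh_pos_iff.mpr hy
    have hc : 0 < Real.cosh y := Real.cosh_pos y
    rw [hv2, hess_expand hG, h1, h2, h3]
    refine pos_form (by positivity) ?_ ?_
    · have : (Real.sinh y / Real.cosh y) ^ 3 * a * (Real.sinh y / Real.cosh y * d) -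
          (-(Real.sinh y / Real.cosh y) ^ 2 * b) ^ 2 =
          (Real.sinh y / Real.cosh y) ^ 4 * (a * d - b ^ 2) := by ring
      rw [this]
      have hdet : 0 < a * d - b ^ 2 := by
        have : b ^ 2 ≤ (1 / 4) ^ 2 := sq_le_sq' (by linarith [(abs_le.mp hb).1]) (abs_le.mp hb).2
        nlinarith
      positivity
    · by_contra hcon
      rw [not_or, not_not, not_not] at hcon
      apply hv
      rw [hv2, hcon.1, hcon.2]
      simp

theorem pcs {L : ℝ} (hL : 1 ≤ L)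
    (hcore : ∀ θ y : ℝ, 0 < y → |θ - phi y / 2| ≤ Real.pi / 2 → Good (ff L) θ y)
    (hG : ContDiff ℝ ∞ (GG L)) (P : ℝ × ℝ) :
    Function.Injective (fderiv ℝ (surf (GG L)) P) ∧
    ∃ k₁ k₂ : ℝ, 0 < k₁ ∧ k₁ < k₂ ∧ 1 / 4 ≤ k₁ ^ 2 + k₂ ^ 2 ∧
      IsPC (surf (GG L)) nrm P k₁ ∧ IsPC (surf (GG L)) nrm P k₂ := by
  rcases eq_or_ne P 0 with rfl | hP
  · obtain ⟨h1, h2, h3⟩ := hess_GG_zero L
    exact pc_pole hG (by unfold eta; norm_num) (by unfold eta; norm_num) h1 h2 h3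
  · obtain ⟨y, hy, θ, rfl⟩ := pt_surj hP
    obtain ⟨a, b, d, ha, hd, hd2, hb, hne, h1, h2, h3, -⟩ := point_data hL hcore hG θ hy
    refine pc_polar hG hy (by linarith) (by linarith) hd2 ?_ hne h1 h2 h3
    have : b ^ 2 ≤ (1 / 4) ^ 2 := sq_le_sq' (by linarith [(abs_le.mp hb).1]) (abs_le.mp hb).2
    nlinarith

theorem rr_pos {P : ℝ × ℝ} (hP : P ≠ 0) : 0 < rr P := by
  unfold rr
  apply Real.sqrt_pos.mpr
  by_contra hcon
  rw [not_lt] at hcon
  apply hP
  have h1 : P.1 ^ 2 = 0 := by nlinarith [sq_nonneg P.1, sq_nonneg P.2]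
  have h2 : P.2 ^ 2 = 0 := by nlinarith [sq_nonneg P.1, sq_nonneg P.2]
  exact Prod.ext (by simpa using h1) (by simpa using h2)

theorem norm_le_rr (P : ℝ × ℝ) : ‖P‖ ≤ rr P := by
  unfold rr
  rw [Prod.norm_def]
  apply max_le
  · rw [Real.norm_eq_abs]
    apply Real.abs_le_sqrt
    nlinarith [sq_nonneg P.2]
  · rw [Real.norm_eq_abs]
    apply Real.abs_le_sqrt
    nlinarith [sq_nonneg P.1]

theorem tendsto_yy : Tendsto yy (cocompact (ℝ × ℝ)) (𝓝[>] 0) := by
  have h1 : Tendsto (fun P : ℝ × ℝ => rr P) (cocompact (ℝ × ℝ)) atTop :=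
    tendsto_atTop_mono norm_le_rr (tendsto_norm_cocompact_atTop (E := ℝ × ℝ))
  have h2 : Tendsto (fun P : ℝ × ℝ => 1 / rr P) (cocompact (ℝ × ℝ)) (𝓝[>] 0) := by
    have := tendsto_inv_atTop_nhdsGT_zero.comp h1
    simpa [Function.comp_def, one_div] using this
  have h3 : Tendsto Real.arsinh (𝓝[>] 0) (𝓝[>] 0) := by
    rw [tendsto_nhdsWithin_iff]
    constructor
    · have := Real.continuous_arsinh.tendsto 0
      rw [Real.arsinh_zero] at this
      exact this.mono_left nhdsWithin_le_nhds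
    · filter_upwards [self_mem_nhdsWithin] with x hx
      exact Real.arsinh_pos_iff.mpr hx
  exact h3.comp h2

theorem tendsto_Jc : Tendsto Jc (𝓝[>] 0) atTop := by
  refine tendsto_Jc' continuousOn_al (fun y hy => al_abs hy) ?_
  intro y hy h
  have hk := coth_big hy (by linarith : 0 ≤ phi y)
  obtain ⟨b1, b2⟩ := Cc_bound hy
  have h3 : 3 / 10 ≤ phi y := by linarith
  rw [al_eq h3, tau_one h]
  have q1 := abs_mul_le' b1 (Real.abs_cos_le_one (phi y))
  have q2 := abs_mul_le' b2 (Real.abs_sin_le_one (phi y))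
  rw [abs_le] at q1 q2
  linarith [q1.1, q1.2, q2.1, q2.2]

theorem height {L : ℝ} (hL : 1 ≤ L)
    (hcore : ∀ θ y : ℝ, 0 < y → |θ - phi y / 2| ≤ Real.pi / 2 → Good (ff L) θ y)
    (hG : ContDiff ℝ ∞ (GG L)) :
    Tendsto (fun P => surf (GG L) P 2) (cocompact (ℝ × ℝ)) atTop := by
  have h1 : Tendsto (fun P : ℝ × ℝ => (eta * Jc (yy P) - 3) / 2) (cocompact (ℝ × ℝ)) atTop := by
    have h2 := tendsto_Jc.comp tendsto_yy
    have heta : (0:ℝ) < eta := by unfold eta; norm_num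
    have h3 : Tendsto (fun P : ℝ × ℝ => eta * Jc (yy P)) (cocompact (ℝ × ℝ)) atTop :=
      h2.const_mul_atTop heta
    have h4 := tendsto_atTop_add_const_right (cocompact (ℝ × ℝ)) (-3 : ℝ) h3
    have h5 := h4.atTop_div_const (show (0:ℝ) < 2 by norm_num)
    exact h5.congr (fun P => by ring)
  refine tendsto_atTop_mono' _ ?_ h1
  have hy1 : ∀ᶠ P : ℝ × ℝ in cocompact (ℝ × ℝ), yy P ∈ Ioo (0:ℝ) (1 / 1000) :=
    tendsto_yy.eventually (Ioo_mem_nhdsGT (by norm_num))
  have hpos : ∀ᶠ P : ℝ × ℝ in cocompact (ℝ × ℝ), 0 ≤ (eta * Jc (yy P) - 3) / 2 :=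
    h1.eventually (eventually_ge_atTop 0)
  have hne : ∀ᶠ P : ℝ × ℝ in cocompact (ℝ × ℝ), P ≠ 0 :=
    isCompact_singleton.compl_mem_cocompact
  filter_upwards [hy1, hpos, hne] with P hP1 hP2 hP3
  obtain ⟨y, hy, θ, rfl⟩ := pt_surj hP3
  rw [yy_pt θ hy] at hP1 hP2 ⊢
  obtain ⟨a, b, d, -, -, -, -, -, -, -, -, h6⟩ := point_data hL hcore hG θ hy
  have h7 := h6 (by linarith [hP1.2])
  have h8 : surf (GG L) (pt θ y) 2 =
      fderiv ℝ (GG L) (pt θ y) (pt θ y) - GG L (pt θ y) := by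
    simp [surf]
  rw [h8]
  have hc1 := Real.one_le_cosh y
  have hc2 := cosh_le_two hy hP1.2.le
  set Z := fderiv ℝ (GG L) (pt θ y) (pt θ y) - GG L (pt θ y) with hZ
  have hZ0 : 0 ≤ Z := by
    by_contra hcon
    rw [not_le] at hcon
    nlinarith
  nlinarith

/-- with injective `dX` the two given principal curvatures are all of them -/
theorem pc_all {X ν : ℝ × ℝ → E3} {P : ℝ × ℝ} (hinj : Function.Injective (fderiv ℝ X P))
    {k₁ k₂ : ℝ} (hk : k₁ < k₂) (h1 : IsPC X ν P k₁) (h2 : IsPC X ν P k₂) (k : ℝ) :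
    IsPC X ν P k ↔ k = k₁ ∨ k = k₂ := by
  constructor
  · rintro ⟨v, hv, hk3⟩
    obtain ⟨a, ha, ha2⟩ := h1
    obtain ⟨b, hb, hb2⟩ := h2
    -- a, b are linearly independent
    have hdet : a.1 * b.2 - a.2 * b.1 ≠ 0 := by
      intro hdet
      -- then b is a multiple of a
      obtain ⟨c, hc⟩ : ∃ c : ℝ, b = c • a := by
        rcases eq_or_ne a.1 0 with h | h
        · have h3 : a.2 ≠ 0 := by
            intro h4; exact ha (Prod.ext h h4)
          refine ⟨b.2 / a.2, ?_⟩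
          ext
          · simp
            rw [h] at hdet ⊢
            have : a.2 * b.1 = 0 := by linarith
            rcases mul_eq_zero.mp this with h5 | h5
            · exact absurd h5 h3
            · rw [h5]; ring
          · simp; field_simp
        · refine ⟨b.1 / a.1, ?_⟩
          ext
          · simp; field_simp
          · simp
            field_simp
            linarith
      have hc0 : c ≠ 0 := by
        intro h0; rw [h0, zero_smul] at hc; exact hb hc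
      rw [hc, map_smul, map_smul, ha2] at hb2
      have h3 : (c * (k₂ - k₁)) • fderiv ℝ X P a = 0 := by
        have : c • -k₁ • fderiv ℝ X P a - -k₂ • c • fderiv ℝ X P a = 0 := by
          rw [hb2, sub_self]
        rw [← this]
        module
      have h4 : fderiv ℝ X P a ≠ 0 := by
        intro h0
        apply ha
        apply hinj
        rw [h0, map_zero]
      rcases smul_eq_zero.mp h3 with h5 | h5
      · rcases mul_eq_zero.mp h5 with h6 | h6
        · exact hc0 h6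
        · linarith
      · exact h4 h5
    obtain ⟨x, z, hxz⟩ : ∃ x z : ℝ, v = x • a + z • b := by
      refine ⟨(v.1 * b.2 - v.2 * b.1) / (a.1 * b.2 - a.2 * b.1),
        (a.1 * v.2 - a.2 * v.1) / (a.1 * b.2 - a.2 * b.1), ?_⟩
      ext
      · simp only [Prod.fst_add, Prod.smul_fst, smul_eq_mul]
        rw [div_mul_eq_mul_div, div_mul_eq_mul_div, ← add_div, eq_div_iff hdet]
        ring
      · simp only [Prod.snd_add, Prod.smul_snd, smul_eq_mul]
        rw [div_mul_eq_mul_div, div_mul_eq_mul_div, ← add_div, eq_div_iff hdet]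
        ring
    rw [hxz] at hk3
    simp only [map_add, map_smul, ha2, hb2] at hk3
    have h3 : fderiv ℝ X P ((x * (k - k₁)) • a + (z * (k - k₂)) • b) = 0 := by
      rw [map_add, map_smul, map_smul]
      have h4 : (x • -k₁ • fderiv ℝ X P a + z • -k₂ • fderiv ℝ X P b) -
        (-k • (x • fderiv ℝ X P a + z • fderiv ℝ X P b)) = 0 := by rw [hk3, sub_self]
      rw [← h4]
      module
    have h5 : (x * (k - k₁)) • a + (z * (k - k₂)) • b = 0 := by
      apply hinj; rw [h3, map_zero]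
    have h6 : x * (k - k₁) * a.1 + z * (k - k₂) * b.1 = 0 := by
      have := congrArg Prod.fst h5; simpa using this
    have h7 : x * (k - k₁) * a.2 + z * (k - k₂) * b.2 = 0 := by
      have := congrArg Prod.snd h5; simpa using this
    have h8 : x * (k - k₁) * (a.1 * b.2 - a.2 * b.1) = 0 := by
      linear_combination b.2 * h6 - b.1 * h7
    have h9 : z * (k - k₂) * (a.1 * b.2 - a.2 * b.1) = 0 := by
      linear_combination a.1 * h7 - a.2 * h6
    have h10 : x * (k - k₁) = 0 := by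
      rcases mul_eq_zero.mp h8 with h | h
      · exact h
      · exact absurd h hdet
    have h11 : z * (k - k₂) = 0 := by
      rcases mul_eq_zero.mp h9 with h | h
      · exact h
      · exact absurd h hdet
    by_contra hcon
    rw [not_or] at hcon
    have hx : x = 0 := by
      rcases mul_eq_zero.mp h10 with h | h
      · exact h
      · exact absurd (sub_eq_zero.mp h) hcon.1
    have hz : z = 0 := by
      rcases mul_eq_zero.mp h11 with h | h
      · exact h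
      · exact absurd (sub_eq_zero.mp h) hcon.2
    apply hv
    rw [hxz, hx, hz]; simp
  · rintro (rfl | rfl)
    · exact h1
    · exact h2

theorem main : ∃ X ν : ℝ × ℝ → E3, ContDiff ℝ ∞ X ∧ ContDiff ℝ ∞ ν ∧
    Function.Injective X ∧ (∀ P, Function.Injective (fderiv ℝ X P)) ∧
    (∀ P, ‖ν P‖ = 1) ∧ (∀ P v, ⟪ν P, fderiv ℝ X P v⟫ = 0) ∧
    Tendsto X (cocompact (ℝ × ℝ)) (cocompact E3) ∧
    IsCompleteSurf X ∧ DivPathsInf X ∧
    ∀ P, ∃ k₁ k₂ : ℝ, (∀ k : ℝ, IsPC X ν P k ↔ k = k₁ ∨ k = k₂) ∧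
      0 < k₁ ∧ k₁ < k₂ ∧ 1 / 4 ≤ k₁ ^ 2 + k₂ ^ 2 := by
  obtain ⟨L, hL, hcore⟩ := core
  have hin : ∀ θ y : ℝ, 0 < y → phi y ≤ 2 / 5 → chi θ y * FF L θ y = 0 :=
    fun θ y h1 h2 => pattern_inactive h1 h2
  have hchi : ∀ θ y : ℝ, 1 ≤ |4 * (θ - phi y / 2) * coth y| → chi θ y = 0 :=
    fun θ y h => chi_zero h
  have hcap : ∀ y : ℝ, 0 < y → phi y ≤ 0 → Cc y = 0 ∧ Dt y = 0 ∧ a0 y = 0 := by
    intro y h1 h2
    obtain ⟨g1, g2, g3, g4, g5, g6, g7, g8, g9⟩ := cap h1 h2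
    exact ⟨g3, g4, g8⟩
  have hG : ContDiff ℝ ∞ (GG L) := contDiff_GG contDiffOn_phi contDiffOn_Cc contDiffOn_Dd
    contDiffOn_a0 (pa_smooth hL) (pb_smooth hL) (Pc_smooth hL) (Ps_smooth hL) (Qc_smooth hL)
    (Qs_smooth hL) hin hchi hcap
  have hprop := proper_of_height (height hL hcore hG)
  have hsm := contDiff_surf hG
  have hinj := surf_injective hG (fun P v hv => hess_pos hL hcore hG P v hv)
  refine ⟨surf (GG L), nrm, hsm, contDiff_nrm, hinj, fun P => (pcs hL hcore hG P).1, norm_nrm,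
    fun P v => inner_nrm hG P v, hprop, complete_of_proper hsm hprop hinj,
    divPaths_of_proper hsm hprop, ?_⟩
  intro P
  obtain ⟨hi, k₁, k₂, h1, h2, h3, h4, h5⟩ := pcs hL hcore hG P
  exact ⟨k₁, k₂, pc_all hi h2 h4 h5, h1, h2, h3⟩

end Pool.Agent.TH168.Mil
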