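import Mathlib

/-!
Definitions for the counterexample to Milnor's conjecture (MP_7d7bd6_gt).

Coordinates: theta (angle), y in (0, infinity) (Mercator latitude).  All one-variable functions below are
used only on y > 0.
-/

set_option autoImplicit false

namespace Pool.Agent.TH168.Mil

open Set Filter Topology MeasureTheory

noncomputable section

/-- the small amplitude -/
def eta : ℝ := 1 / 10 ^ 6

/-- twice the angle of the distinguished wall -/
def phi (y : ℝ) : ℝ := -2 * Real.log (1000 * Real.sinh y)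

/-- first switch: `0` for `phi y ≤ 0`, `1` for `phi y ≥ 3/10` -/
def sg (y : ℝ) : ℝ := Real.smoothTransition (10 / 3 * phi y)

/-- second switch: `0` for `t ≤ 12/5`, `1` for `t ≥ 13/5` -/
def tau (t : ℝ) : ℝ := Real.smoothTransition (5 * t - 12)

def Gc (t : ℝ) : ℝ := ∫ s in (0:ℝ)..t, tau s * Real.cos s

def Gs (t : ℝ) : ℝ := ∫ s in (0:ℝ)..t, tau s * Real.sin s

def ic (y : ℝ) : ℝ := sg y * (-3 * Real.cos (phi y) + 4 * Real.sin (phi y))

def js (y : ℝ) : ℝ := sg y * (-3 * Real.sin (phi y) - 4 * Real.cos (phi y) + 4 * Real.exp (-y))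

def Ic (y : ℝ) : ℝ := ∫ s in y..1, ic s

def Is (y : ℝ) : ℝ := ∫ s in y..1, js s

/-- derivative of `Cc` -/
def C1 (y : ℝ) : ℝ := Gc (phi y) - Ic y

/-- derivative of `Dd` -/
def D1 (y : ℝ) : ℝ := Real.exp (-y) + Gs (phi y) - Is y

/-- coefficient of `cos 2θ` -/
def Cc (y : ℝ) : ℝ := -∫ s in y..1, C1 s

def Dt (y : ℝ) : ℝ := -∫ s in y..1, (D1 s - Real.exp (-s))

/-- coefficient of `sin 2θ` -/
def Dd (y : ℝ) : ℝ := -Real.exp (-y) + Dt y

/-- hyperbolic cotangent -/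
def coth (y : ℝ) : ℝ := Real.cosh y / Real.sinh y

/-- `Cc'' + 3 Cc` -/
def Bc (y : ℝ) : ℝ :=
  -2 * tau (phi y) * coth y * Real.cos (phi y) + ic y + 3 * Cc y

/-- `Dd'' + 3 Dd` -/
def Bs (y : ℝ) : ℝ :=
  -2 * tau (phi y) * coth y * Real.sin (phi y) + js y - 4 * Real.exp (-y) + 3 * Dt y

/-- source of the zero mode -/
def al (y : ℝ) : ℝ := -(sg y) * (Bc y * Real.cos (phi y) + Bs y * Real.sin (phi y))

def be (y : ℝ) : ℝ := Bc y * Real.sin (phi y) - Bs y * Real.cos (phi y)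

def Jc (y : ℝ) : ℝ := ∫ s in y..1, Real.cosh s * al s

def Js (y : ℝ) : ℝ := ∫ s in y..1, Real.sinh s * al s

/-- the zero mode -/
def a0 (y : ℝ) : ℝ := Real.cosh y * Js y - Real.sinh y * Jc y

/-- derivative of the zero mode -/
def a1 (y : ℝ) : ℝ := Real.sinh y * Js y - Real.cosh y * Jc y

/-- background function -/
def f0 (θ y : ℝ) : ℝ :=
  Real.cosh y + eta * (a0 y + Cc y * Real.cos (2 * θ) + Dd y * Real.sin (2 * θ))

/-- background values of `(f_yy - f_θθ - f)/eta` and `2 f_yθ / eta` -/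
def T10 (θ y : ℝ) : ℝ := al y + Bc y * Real.cos (2 * θ) + Bs y * Real.sin (2 * θ)

def T20 (θ y : ℝ) : ℝ := 4 * (D1 y * Real.cos (2 * θ) - C1 y * Real.sin (2 * θ))

/-! ### The oscillating pattern -/

/-- ramp -/
def rho (r : ℝ) : ℝ := Real.smoothTransition (2 * r - 5 / 2)

def kap (L : ℝ) : ℝ := 8 * eta * (1280 * eta) * 500 / (3 * L)

/-- phase in the variable `u = θ + y` -/
def Sp (L u : ℝ) : ℝ := L * Real.exp u ^ 3

/-- phase in the variable `v = θ - y` -/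
def Sm (L v : ℝ) : ℝ := L * (Real.exp v + 1 / 500) ^ 3

/-- derivative of `Sp` -/
def Sp1 (L u : ℝ) : ℝ := 3 * L * Real.exp u ^ 3

/-- derivative of `Sm` -/
def Sm1 (L v : ℝ) : ℝ := 3 * L * Real.exp v * (Real.exp v + 1 / 500) ^ 2

def pa (L u : ℝ) : ℝ :=
  (-(1 / 40) * rho (Real.exp u) * Real.sin (Sp L u) +
    eta * rho (Real.exp u) ^ 2 * Real.cos (2 * Sp L u)) / Sp1 L u ^ 2

def pb (L v : ℝ) : ℝ :=
  (-(1 / 40) * rho (Real.exp v + 1 / 500) * Real.sin (Sm L v) -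
    eta * rho (Real.exp v + 1 / 500) ^ 2 * Real.cos (2 * Sm L v)) / Sm1 L v ^ 2

def Pc (L u : ℝ) : ℝ := rho (Real.exp u) / Real.exp u ^ 2 * Real.cos (Sp L u / 2) / Sp1 L u

def Ps (L u : ℝ) : ℝ := rho (Real.exp u) / Real.exp u ^ 2 * Real.sin (Sp L u / 2) / Sp1 L u

def Qc (L v : ℝ) : ℝ := Real.cos (Sm L v / 2) / Sm1 L v

def Qs (L v : ℝ) : ℝ := Real.sin (Sm L v / 2) / Sm1 L v

/-- the pattern (before cut-off) -/
def FF (L θ y : ℝ) : ℝ :=
  pa L (θ + y) + pb L (θ - y) +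
    kap L * (Pc L (θ + y) * Qc L (θ - y) - Ps L (θ + y) * Qs L (θ - y))

/-- the cut-off -/
def chi (θ y : ℝ) : ℝ :=
  Real.smoothTransition (4 / 3 * (1 - (4 * (θ - phi y / 2) * coth y) ^ 2))

/-- the support function in Mercator coordinates (one period) -/
def ff (L θ y : ℝ) : ℝ := f0 θ y + chi θ y * FF L θ y

/-! ### Two-jets of functions of two real variables -/

/-- `HasJet f θ y v t s tt ts ss`: near `(θ, y)` the function `f` has partial derivatives, and at `(θ, y)`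
its value, first partial derivatives in `θ` and `y`, and second partial derivatives
(`θθ`, `θ` of the `y`-derivative, `yy`) are the given numbers. -/
def HasJet (f : ℝ → ℝ → ℝ) (θ y v t s tt ts ss : ℝ) : Prop :=
  ∃ ft fs : ℝ → ℝ → ℝ,
    (∀ᶠ p : ℝ × ℝ in 𝓝 (θ, y),
      HasDerivAt (fun a => f a p.2) (ft p.1 p.2) p.1 ∧
      HasDerivAt (fun b => f p.1 b) (fs p.1 p.2) p.2) ∧
    f θ y = v ∧ ft θ y = t ∧ fs θ y = s ∧
    HasDerivAt (fun a => ft a y) tt θ ∧
    HasDerivAt (fun a => fs a y) ts θ ∧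
    HasDerivAt (fun b => fs θ b) ss y

/-! ### Derivatives of the pattern in the characteristic variables `u = θ + y`, `v = θ - y` -/

def Fu (L θ y : ℝ) : ℝ :=
  deriv (pa L) (θ + y) +
    kap L * (deriv (Pc L) (θ + y) * Qc L (θ - y) - deriv (Ps L) (θ + y) * Qs L (θ - y))

def Fv (L θ y : ℝ) : ℝ :=
  deriv (pb L) (θ - y) +
    kap L * (Pc L (θ + y) * deriv (Qc L) (θ - y) - Ps L (θ + y) * deriv (Qs L) (θ - y))

def Fuv (L θ y : ℝ) : ℝ :=
  kap L * (deriv (Pc L) (θ + y) * deriv (Qc L) (θ - y) -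
    deriv (Ps L) (θ + y) * deriv (Qs L) (θ - y))

def Fuu (L θ y : ℝ) : ℝ :=
  deriv (deriv (pa L)) (θ + y) +
    kap L * (deriv (deriv (Pc L)) (θ + y) * Qc L (θ - y) -
      deriv (deriv (Ps L)) (θ + y) * Qs L (θ - y))

def Fvv (L θ y : ℝ) : ℝ :=
  deriv (deriv (pb L)) (θ - y) +
    kap L * (Pc L (θ + y) * deriv (deriv (Qc L)) (θ - y) -
      Ps L (θ + y) * deriv (deriv (Qs L)) (θ - y))

/-- Main part of `Fuu`: here `x = exp (θ + y)` and `S` is the phase -/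
def Up (x S : ℝ) : ℝ := 1 / 40 * rho x * Real.sin S - 4 * eta * rho x ^ 2 * Real.cos (2 * S)

/-- Main part of `Fvv` -/
def Um (r S : ℝ) : ℝ := 1 / 40 * rho r * Real.sin S + 4 * eta * rho r ^ 2 * Real.cos (2 * S)

end

end Pool.Agent.TH168.Mil
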