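import Pool.Agent.TH168.Mil.Defs

/-!
Geometric definitions for the counterexample to Milnor's conjecture (MP_7d7bd6_gt).
-/

set_option autoImplicit false

namespace Pool.Agent.TH168.Mil

open Set Filter Topology MeasureTheory

noncomputable section

/-- Euclidean three-space -/
abbrev E3 : Type := EuclideanSpace ℝ (Fin 3)

/-- The surface with support function (in the affine chart) `G`. -/
def surf (G : ℝ × ℝ → ℝ) (P : ℝ × ℝ) : E3 :=
  !₂[fderiv ℝ G P (1, 0), fderiv ℝ G P (0, 1), fderiv ℝ G P P - G P]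

/-- The unit normal field of `surf G`. -/
def nrm (P : ℝ × ℝ) : E3 :=
  (Real.sqrt (1 + P.1 ^ 2 + P.2 ^ 2))⁻¹ • !₂[-P.1, -P.2, 1]

/-- Second derivative of `G` as a bilinear form -/
def hess (G : ℝ × ℝ → ℝ) (P v w : ℝ × ℝ) : ℝ := fderiv ℝ (fun Q => fderiv ℝ G Q v) P w

/-- `k` is a principal curvature at `P` of the surface `X` with unit normal `ν` (equation of Rodrigues:
the shape operator `-dν` has eigenvalue `k` on a nonzero tangent vector). -/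
def IsPC (X ν : ℝ × ℝ → E3) (P : ℝ × ℝ) (k : ℝ) : Prop :=
  ∃ v : ℝ × ℝ, v ≠ 0 ∧ fderiv ℝ ν P v = -k • fderiv ℝ X P v

/-- the point of the plane with Mercator coordinates `(θ, y)` -/
def pt (θ y : ℝ) : ℝ × ℝ := (Real.cos θ / Real.sinh y, Real.sin θ / Real.sinh y)

/-- the Mercator support function of `G` -/
def fG (G : ℝ × ℝ → ℝ) (θ y : ℝ) : ℝ := Real.sinh y * G (pt θ y)

/-! ### The function on the plane -/

def rr (P : ℝ × ℝ) : ℝ := Real.sqrt (P.1 ^ 2 + P.2 ^ 2)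

def yy (P : ℝ × ℝ) : ℝ := Real.arsinh (1 / rr P)

/-- `exp (i (2 θ - phi y))` -/
def ww (P : ℝ × ℝ) : ℂ :=
  ((P.1 : ℂ) + (P.2 : ℂ) * Complex.I) ^ 2 / ((P.1 ^ 2 + P.2 ^ 2 : ℝ) : ℂ) *
    Complex.exp (-((phi (yy P) : ℝ) : ℂ) * Complex.I)

/-- `θ - phi y / 2` normalised to `(-π/2, π/2]` -/
def mm (P : ℝ × ℝ) : ℝ := (ww P).arg / 2

/-- the polar formula -/
def GP (L : ℝ) (P : ℝ × ℝ) : ℝ :=
  rr P * (Real.cosh (yy P) + eta * (a0 (yy P) +
      Cc (yy P) * ((P.1 ^ 2 - P.2 ^ 2) / (P.1 ^ 2 + P.2 ^ 2)) +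
      Dd (yy P) * (2 * P.1 * P.2 / (P.1 ^ 2 + P.2 ^ 2)))) +
    rr P * (chi (phi (yy P) / 2 + mm P) (yy P) * FF L (phi (yy P) / 2 + mm P) (yy P))

/-- the cap formula -/
def G0 (P : ℝ × ℝ) : ℝ :=
  Real.sqrt (1 + P.1 ^ 2 + P.2 ^ 2) -
    2 * eta * (P.1 * P.2) / (1 + Real.sqrt (1 + P.1 ^ 2 + P.2 ^ 2))

open Classical in
/-- the support function on the plane -/
def GG (L : ℝ) (P : ℝ × ℝ) : ℝ := if P.1 ^ 2 + P.2 ^ 2 < 1 then G0 P else GP L P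

/-! ### Completeness -/

/-- length of the image under `X` of a `C¹` path `γ` in the plane, over `[a, b]` -/
def pathLen (X : ℝ × ℝ → E3) (γ : ℝ → ℝ × ℝ) (a b : ℝ) : ℝ :=
  ∫ t in a..b, ‖fderiv ℝ X (γ t) (deriv γ t)‖

/-- the set of lengths of `C¹` paths from `p` to `q` -/
def lens (X : ℝ × ℝ → E3) (p q : ℝ × ℝ) : Set ℝ :=
  {ℓ | ∃ γ : ℝ → ℝ × ℝ, ContDiff ℝ 1 γ ∧ γ 0 = p ∧ γ 1 = q ∧ ℓ = pathLen X γ 0 1}

/-- the distance of the metric induced by `X` -/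
def idist (X : ℝ × ℝ → E3) (p q : ℝ × ℝ) : ℝ := sInf (lens X p q)

/-- the metric induced by `X` is complete: every Cauchy sequence for the induced distance converges -/
def IsCompleteSurf (X : ℝ × ℝ → E3) : Prop :=
  ∀ u : ℕ → ℝ × ℝ, (∀ ε : ℝ, 0 < ε → ∃ N : ℕ, ∀ m n : ℕ, N ≤ m → N ≤ n → idist X (u m) (u n) < ε) →
    ∃ p : ℝ × ℝ, Tendsto (fun n => idist X (u n) p) atTop (𝓝 0)

/-- every divergent `C¹` path has infinite length -/
def DivPathsInf (X : ℝ × ℝ → E3) : Prop :=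
  ∀ γ : ℝ → ℝ × ℝ, ContDiff ℝ 1 γ → Tendsto γ atTop (cocompact (ℝ × ℝ)) →
    Tendsto (fun T => pathLen X γ 0 T) atTop atTop

end

end Pool.Agent.TH168.Mil
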