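import Pool.Agent.TH168.Mil.Geo
import Pool.Agent.TH626.J1783
import Pool.Agent.TH626.J1785
import Pool.Agent.TH699.J1784
import Pool.Agent.TH993.J1786
import Pool.Agent.TH902.J1787
import Pool.Agent.TH902.J1788
import Pool.Agent.TH496.J1789
import Pool.Agent.TH959.J1790
import Pool.Agent.TH792.J1791
import Pool.Agent.TH914.J1809
import Pool.Agent.TH365.J1810
import Pool.Agent.TH365.J1811
import Pool.Agent.TH138.J1812

set_option autoImplicit false

namespace Pool.Agent.TH168.Mil

open Pool.Agent

-- A
alias hasDerivAt_phi := TH626.J1783.hasDerivAt_phi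
alias hasDerivAt_coth := TH626.J1783.hasDerivAt_coth
alias hasDerivAt_C1 := TH626.J1783.hasDerivAt_C1
alias hasDerivAt_D1 := TH626.J1783.hasDerivAt_D1
alias hasDerivAt_Cc := TH626.J1783.hasDerivAt_Cc
alias hasDerivAt_Dd := TH626.J1783.hasDerivAt_Dd
alias hasDerivAt_a0 := TH626.J1783.hasDerivAt_a0
alias hasDerivAt_a1 := TH626.J1783.hasDerivAt_a1
alias contDiffOn_phi := TH626.J1783.contDiffOn_phi
alias contDiffOn_coth := TH626.J1783.contDiffOn_coth
alias contDiffOn_Cc := TH626.J1783.contDiffOn_Cc
alias contDiffOn_Dd := TH626.J1783.contDiffOn_Dd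
alias contDiffOn_a0 := TH626.J1783.contDiffOn_a0
alias continuousOn_al := TH626.J1783.continuousOn_al
-- B1
alias sg_mem := TH699.J1784.sg_mem
alias sg_zero := TH699.J1784.sg_zero
alias sg_one := TH699.J1784.sg_one
alias tau_mem := TH699.J1784.tau_mem
alias tau_zero := TH699.J1784.tau_zero
alias tau_one := TH699.J1784.tau_one
alias y_small := TH699.J1784.y_small
alias phi_nonpos := TH699.J1784.phi_nonpos
alias phi_anti := TH699.J1784.phi_anti
alias exp_phi := TH699.J1784.exp_phi
alias G_zero := TH699.J1784.G_zero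
alias I_bound := TH699.J1784.I_bound
alias C1_bound := TH699.J1784.C1_bound
alias Cc_bound := TH699.J1784.Cc_bound
alias cap := TH699.J1784.cap
alias al_eq := TH699.J1784.al_eq
alias be_eq := TH699.J1784.be_eq
alias T10_eq := TH699.J1784.T10_eq
alias al_abs := TH699.J1784.al_abs
alias al_lower := TH699.J1784.al_lower
-- B2
alias a0_bound' := TH626.J1785.a0_bound'
alias tendsto_Jc' := TH626.J1785.tendsto_Jc'
alias a1_le' := TH626.J1785.a1_le'
-- C
alias nat_zone' := TH993.J1786.nat_zone'
alias far_wall' := TH993.J1786.far_wall'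
alias N_lower' := TH993.J1786.N_lower'
alias N_ramp' := TH993.J1786.N_ramp'
alias near_wall' := TH993.J1786.near_wall'
-- U, V
alias pa_smooth := TH902.Mil.pa_smooth
alias Pc_smooth := TH902.Mil.Pc_smooth
alias Ps_smooth := TH902.Mil.Ps_smooth
alias u_bounds := TH902.Mil.u_bounds
alias pb_smooth := TH902.Mil.pb_smooth
alias Qc_smooth := TH902.Mil.Qc_smooth
alias Qs_smooth := TH902.Mil.Qs_smooth
alias v_bounds := TH902.Mil.v_bounds
-- ZC
alias zoneC_core := TH496.MilZC.zoneC_core
-- CH
alias chi_mem := TH792.J1791.chi_mem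
alias chi_one := TH792.J1791.chi_one
alias chi_zero := TH792.J1791.chi_zero
alias chi_jet := TH792.J1791.chi_jet
alias pattern_inactive := TH792.J1791.pattern_inactive
alias zone_facts := TH792.J1791.zone_facts
-- G1
alias hasJet_fG := TH914.Mil.hasJet_fG
alias hess_symm := TH914.Mil.hess_symm
alias hess_add_left := TH914.Mil.hess_add_left
alias hess_smul_left := TH914.Mil.hess_smul_left
-- G2
alias contDiff_surf := TH365.Mil2.contDiff_surf
alias contDiff_nrm := TH365.Mil2.contDiff_nrm
alias norm_nrm := TH365.Mil2.norm_nrm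
alias inner_nrm := TH365.Mil2.inner_nrm
alias pc_polar := TH365.Mil2.pc_polar
alias pc_pole := TH365.Mil2.pc_pole
-- G3
alias divPaths_of_proper := TH365.Mil.divPaths_of_proper
alias complete_of_proper := TH365.Mil.complete_of_proper
alias surf_injective := TH365.Mil.surf_injective
alias proper_of_height := TH365.Mil.proper_of_height
-- G4
alias hess_G0 := TH138.J1812.hess_G0
alias yy_pt := TH138.J1812.yy_pt
alias pt_surj := TH138.J1812.pt_surj
alias contDiff_GG := TH138.J1812.contDiff_GG
alias fG_GG := TH138.J1812.fG_GG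

end Pool.Agent.TH168.Mil
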